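import Pool.Agent.V1188.Sh.KSet

set_option autoImplicit false

open MeasureTheory Set Filter Topology

namespace Pool.Agent.V1188.Sh

open Pool.Agent.H283R3.Newt

/-- the level -/
noncomputable def c0 : ℝ := 77 * Real.pi / 50

lemma c0_pos : 0 < c0 := by unfold c0; positivity

lemma Nn_small {ζ : ℝ} (h : 9 / 10 ≤ ζ) : Nn 1 ζ < c0 := by
  have hpi := Real.pi_pos
  unfold Nn c0
  split_ifs with h1
  · have h2 : 81 / 100 ≤ ζ ^ 2 := by nlinarith
    have h3 : 2 * Real.pi * (1 ^ 2 - ζ ^ 2 / 3) ≤ 2 * Real.pi * (1 ^ 2 - (81/100) / 3) := by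
      gcongr
    linarith
  · push Not at h1
    rw [div_lt_iff₀ (by linarith)]
    nlinarith

lemma Nn_big : c0 < Nn (9/10) 0 := by
  have hpi := Real.pi_pos
  unfold Nn c0
  rw [if_pos (by norm_num)]
  nlinarith

/-- the contact set -/
def KK (g : E3 → ℝ) : Set E3 := {x | V g x = c0}

lemma K_sub_ball {g : E3 → ℝ} (h : Sol Dm c0 g) : KK g ⊆ Metric.ball 0 (9/10) := by
  intro x hx
  have hx' : V g x = c0 := hx
  rw [mem_ball_zero_iff]
  by_contra hn
  push Not at hn
  have h1 := (h.adm.good Dm_sub_ball).V_abs_le one_pos x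
  have h2 := Nn_small hn
  have h3 := le_abs_self (V g x)
  linarith

lemma K_nonzero {g : E3 → ℝ} (h : Sol Dm c0 g) : ∃ y, V g y = c0 ∧ y ≠ 0 := by
  by_contra hcon
  push Not at hcon
  have hG := h.adm.good Dm_sub_ball
  have hlt : ∀ x, x ≠ 0 → V g x < c0 := by
    intro x hx
    refine lt_of_le_of_ne (h.le x) ?_
    intro he
    exact hx (hcon x he)
  have hne : ∀ᵐ y : E3, y ≠ 0 := by simp [ae_iff]
  have h1 : Nn (9/10) 0 ≤ V g 0 := by
    have e1 : Nn (9/10) 0 = ∫ y, (Metric.ball (0:E3) (9/10)).indicator (fun y => (dist (0:E3) y)⁻¹) y := by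
      rw [integral_indicator Metric.isOpen_ball.measurableSet, ball_pot (by norm_num), dist_self]
    rw [e1]
    unfold V
    apply integral_mono_ae
    · exact (integrable_indicator_iff Metric.isOpen_ball.measurableSet).2 (kern_int (by norm_num) 0 0)
    · exact hG.int_kern one_pos 0
    filter_upwards [h.one, hne] with y hy hy0
    by_cases hyb : y ∈ Metric.ball (0:E3) (9/10)
    · rw [indicator_of_mem hyb, hy (ball_sub_Dm hyb) (hlt y hy0), one_mul]
    · rw [indicator_of_notMem hyb]
      exact mul_nonneg (h.adm.nonneg y) (inv_nonneg.2 dist_nonneg)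
  have h2 := h.le 0
  have h3 := Nn_big
  linarith

lemma K_rad {g : E3 → ℝ} (h : Sol Dm c0 g) : Rad (KK g) := by
  have hG := h.adm.good Dm_sub_ball
  obtain ⟨y0, hy0, hy0n⟩ := K_nonzero h
  have hz : (0:E3) ∈ interior (KK g) := by
    have := star_move h hy0 hy0n (t := 0) le_rfl one_pos
    rwa [zero_smul] at this
  refine ⟨?_, hz, ?_⟩
  · have h1 := hG.compact_ge one_pos c0_pos
    have h2 : KK g = {x | c0 ≤ V g x} := by
      ext x
      constructor
      · intro hx
        exact (show V g x = c0 from hx).ge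
      · intro hx
        exact le_antisymm (h.le x) hx
    rw [h2]; exact h1
  · intro x hx t ht0 ht1
    by_cases hx0 : x = 0
    · rw [hx0, smul_zero]; exact hz
    · exact star_move h hx hx0 ht0 ht1

/-- the density vanishes in the interior of the contact set -/
lemma g_zero {g : E3 → ℝ} (h : Sol Dm c0 g) : ∀ᵐ y ∂(volume : Measure E3), y ∈ interior (KK g) → g y = 0 := by
  have hG := h.adm.good Dm_sub_ball
  have hloc : ∀ x ∈ interior (KK g), ∃ r > 0, ∀ᵐ y ∂(volume : Measure E3), y ∈ Metric.ball x r → g y = 0 := by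
    intro x hx
    obtain ⟨r, hr, hball⟩ := Metric.isOpen_iff.1 isOpen_interior x hx
    refine ⟨r, hr, ?_⟩
    have hc : ∀ z ∈ Metric.ball x r, V g z = c0 := by
      intro z hz
      have hz' : z ∈ KK g := interior_subset (hball hz)
      exact hz'
    have h1 := hG.mean_diff one_pos hr x
    have h2 : ∫ z in Metric.ball x r, V g z = c0 * vb r := by
      rw [setIntegral_congr_fun Metric.isOpen_ball.measurableSet (g := fun _ => c0) (fun z hz => hc z hz),
        setIntegral_const, smul_eq_mul, measureReal_def, vol_ball hr,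
        ENNReal.toReal_ofReal (vb_pos hr).le, mul_comm]
    rw [h2, hc x (Metric.mem_ball_self hr), mul_div_cancel_right₀ _ (vb_pos hr).ne', sub_self] at h1
    have hint : Integrable (fun y => g y * kr r (dist x y)) := by
      have i1 := hG.int_kern one_pos x
      have hm : Measurable fun y : E3 => Nn r (dist x y) := by
        unfold Nn
        apply Measurable.ite (measurableSet_lt (by fun_prop) (by fun_prop)) <;> fun_prop
      have i2 : Integrable (fun y => g y * (Nn r (dist x y) / vb r)) := by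
        refine ((hG.integrable one_pos).abs.mul_const (2 * Real.pi * r ^ 2 / vb r)).mono'
          (by have := hG.meas; fun_prop) (ae_of_all _ fun y => ?_)
        have hv := vb_pos hr
        rw [Real.norm_eq_abs, abs_mul, abs_of_nonneg (div_nonneg (Nn_nonneg hr dist_nonneg) hv.le)]
        gcongr
        exact Nn_le hr dist_nonneg
      refine (i1.sub i2).congr (ae_of_all _ fun y => ?_)
      simp only [Pi.sub_apply, kr]
      ring
    have hne : ∀ᵐ y : E3, y ≠ x := by simp [ae_iff]
    have h3 := (integral_eq_zero_iff_of_nonneg_ae (by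
      filter_upwards [hne] with y hy
      exact mul_nonneg (h.adm.nonneg y) (kr_nonneg hr (dist_pos.2 hy.symm))) hint).1 h1.symm
    filter_upwards [h3, hne] with y hy hyx hyb
    simp only [Pi.zero_apply] at hy
    rcases mul_eq_zero.1 hy with h4 | h4
    · exact h4
    · exfalso
      have : 0 < kr r (dist x y) := kr_pos (dist_pos.2 hyx.symm) (by rw [dist_comm]; exact hyb)
      linarith
  have hnull : volume {y | y ∈ interior (KK g) ∧ g y ≠ 0} = 0 := by
    apply measure_null_of_locally_null
    intro x hx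
    obtain ⟨r, hr, hae⟩ := hloc x hx.1
    refine ⟨Metric.ball x r ∩ {y | y ∈ interior (KK g) ∧ g y ≠ 0}, ?_, ?_⟩
    · rw [inter_comm]
      exact inter_mem_nhdsWithin _ (Metric.ball_mem_nhds x hr)
    · rw [ae_iff] at hae
      apply measure_mono_null _ hae
      rintro y ⟨hy1, hy2⟩
      simp only [mem_ofPred_eq]
      push Not
      exact ⟨hy1, hy2.2⟩
  rw [ae_iff]
  convert hnull using 2
  ext y
  simp

lemma g_ae {g : E3 → ℝ} (h : Sol Dm c0 g) :
    g =ᵐ[volume] (Dm \ KK g).indicator (fun _ => (1:ℝ)) := by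
  have hrad := K_rad h
  have hnull : ∀ᵐ y ∂(volume : Measure E3), y ∉ KK g \ interior (KK g) := by
    rw [ae_iff]
    simp only [not_not]
    exact hrad.null
  filter_upwards [h.one, g_zero h, hnull] with y h1 h2 h3
  by_cases hyK : y ∈ KK g
  · have hy' : y ∈ interior (KK g) := by
      by_contra hn
      exact h3 ⟨hyK, hn⟩
    rw [h2 hy', indicator_of_notMem (fun h4 => h4.2 hyK)]
  · by_cases hyD : y ∈ Dm
    · have hyDK : y ∈ Dm \ KK g := ⟨hyD, hyK⟩
      rw [indicator_of_mem hyDK]
      exact h1 hyD (lt_of_le_of_ne (h.le y) hyK)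
    · rw [h.adm.zero_off hyD, indicator_of_notMem (fun h4 => hyD h4.1)]

lemma potential_const {g : E3 → ℝ} (h : Sol Dm c0 g) {P : E3} (hP : P ∈ KK g) :
    ∫ M in Dm \ KK g, (dist P M)⁻¹ = c0 := by
  have hrad := K_rad h
  have hms : MeasurableSet (Dm \ KK g) := Dm_open.measurableSet.diff hrad.cpt.isClosed.measurableSet
  have h1 : V g P = ∫ M in Dm \ KK g, (dist P M)⁻¹ := by
    rw [← integral_indicator hms]
    unfold V
    apply integral_congr_ae
    filter_upwards [g_ae h] with y hy
    rw [hy]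
    by_cases hyS : y ∈ Dm \ KK g
    · rw [indicator_of_mem hyS, indicator_of_mem hyS, one_mul]
    · rw [indicator_of_notMem hyS, indicator_of_notMem hyS, zero_mul]
  rw [← h1]; exact hP

theorem main :
    ¬ (∀ (S S₁ U T₁ : Set (EuclideanSpace ℝ (Fin 3))),
    Nonempty (S ≃ₜ Metric.sphere (0 : EuclideanSpace ℝ (Fin 3)) 1) →
    Nonempty (S₁ ≃ₜ Metric.sphere (0 : EuclideanSpace ℝ (Fin 3)) 1) →
    IsOpen U → IsConnected U → Bornology.IsBounded U → frontier U = S →
    IsOpen T₁ → IsConnected T₁ → Bornology.IsBounded T₁ → frontier T₁ = S₁ →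
    closure T₁ ⊆ U →
    (∃ c : ℝ, ∀ P ∈ T₁, ∫ M in U \ closure T₁, (dist P M)⁻¹ = c) →
    ∃ (f : EuclideanSpace ℝ (Fin 3) ≃ᵃ[ℝ] EuclideanSpace ℝ (Fin 3)) (k : ℝ),
      0 < k ∧ k < 1 ∧
      S = f '' Metric.sphere (0 : EuclideanSpace ℝ (Fin 3)) 1 ∧
      S₁ = f '' Metric.sphere (0 : EuclideanSpace ℝ (Fin 3)) k) := by
  intro hall
  obtain ⟨g, h⟩ := exists_sol Dm_open.measurableSet one_pos Dm_sub_ball c0_pos.le
  have hK := K_rad h
  have hD := Dc_rad
  obtain ⟨f, k, _, _, hS, _⟩ := hall (frontier Dc) (frontier (KK g)) Dm (interior (KK g))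
    hD.homeo hK.homeo Dm_open (by rw [← Dc_interior]; exact hD.connected)
    (Metric.isBounded_ball.subset Dm_sub_ball)
    (by rw [← Dc_interior]; exact hD.frontier_interior)
    isOpen_interior hK.connected (hK.cpt.isBounded.subset interior_subset)
    hK.frontier_interior
    (by rw [hK.closure_interior]; exact (K_sub_ball h).trans ball_sub_Dm)
    ⟨c0, fun P hP => by
      rw [hK.closure_interior]
      exact potential_const h (interior_subset hP)⟩
  exact Dc_not_ellipsoid f hS

end Pool.Agent.V1188.Sh
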