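import Pool.Agent.V1188.Sh.Geo

set_option autoImplicit false

open MeasureTheory Set Filter Topology

namespace Pool.Agent.V1188.Sh

open Pool.Agent.H283R3.Newt

/-- the truncated ball -/
def Dm : Set E3 := {x | ‖x‖ < 1 ∧ ∀ i, |x i| < 9 / 10}

/-- the closed truncated ball -/
def Dc : Set E3 := {x | ‖x‖ ≤ 1 ∧ ∀ i, |x i| ≤ 9 / 10}

lemma Dm_open : IsOpen Dm := by
  have h : Dm = {x : E3 | ‖x‖ < 1} ∩ ⋂ i : Fin 3, {x : E3 | |x i| < 9 / 10} := by
    ext x; simp [Dm]
  rw [h]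
  apply IsOpen.inter
  · exact isOpen_lt continuous_norm continuous_const
  · apply isOpen_iInter_of_finite
    intro i
    exact isOpen_lt (by fun_prop) continuous_const

lemma Dc_closed : IsClosed Dc := by
  have h : Dc = {x : E3 | ‖x‖ ≤ 1} ∩ ⋂ i : Fin 3, {x : E3 | |x i| ≤ 9 / 10} := by
    ext x; simp [Dc]
  rw [h]
  apply IsClosed.inter
  · exact isClosed_le continuous_norm continuous_const
  · apply isClosed_iInter
    intro i
    exact isClosed_le (by fun_prop) continuous_const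

lemma Dm_sub_Dc : Dm ⊆ Dc := fun _ hx => ⟨hx.1.le, fun i => (hx.2 i).le⟩

lemma Dm_sub_ball : Dm ⊆ Metric.ball 0 1 := fun _ hx => mem_ball_zero_iff.2 hx.1

lemma abs_coord_le (x : E3) (i : Fin 3) : |x i| ≤ ‖x‖ := by
  have := PiLp.norm_apply_le x i
  rwa [Real.norm_eq_abs] at this

lemma ball_sub_Dm : Metric.ball (0:E3) (9/10) ⊆ Dm := by
  intro x hx
  rw [mem_ball_zero_iff] at hx
  exact ⟨by linarith, fun i => (abs_coord_le x i).trans_lt hx⟩

lemma Dc_smul {x : E3} (hx : x ∈ Dc) {t : ℝ} (ht0 : 0 ≤ t) (ht1 : t < 1) : t • x ∈ Dm := by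
  constructor
  · rw [norm_smul, Real.norm_of_nonneg ht0]
    have := hx.1
    nlinarith [norm_nonneg x]
  · intro i
    rw [PiLp.smul_apply, smul_eq_mul, abs_mul, abs_of_nonneg ht0]
    have := hx.2 i
    nlinarith [abs_nonneg (x i)]

lemma Dc_cpt : IsCompact Dc := by
  apply Metric.isCompact_of_isClosed_isBounded Dc_closed
  apply (Metric.isBounded_closedBall (x := (0:E3)) (r := 1)).subset
  intro x hx
  exact mem_closedBall_zero_iff.2 hx.1

lemma Dc_interior : interior Dc = Dm := by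
  apply Subset.antisymm
  · intro x hx
    have hcont : Continuous fun s : ℝ => s • x := by fun_prop
    have hn : (fun s : ℝ => s • x) ⁻¹' (interior Dc) ∈ 𝓝 1 :=
      (isOpen_interior.preimage hcont).mem_nhds (by rw [mem_preimage, one_smul]; exact hx)
    obtain ⟨ε, hε, hball⟩ := Metric.mem_nhds_iff.1 hn
    have h1 : (1 + ε / 2) • x ∈ Dc := by
      apply interior_subset
      apply hball
      rw [Metric.mem_ball, Real.dist_eq, show 1 + ε / 2 - 1 = ε / 2 by ring,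
        abs_of_pos (by linarith)]
      linarith
    have h2 := Dc_smul h1 (t := (1 + ε / 2)⁻¹) (by positivity) (by
      apply inv_lt_one_of_one_lt₀; linarith)
    rwa [smul_smul, inv_mul_cancel₀ (by positivity), one_smul] at h2
  · exact interior_maximal Dm_sub_Dc Dm_open

lemma Dc_rad : Rad Dc := by
  refine ⟨Dc_cpt, ?_, ?_⟩
  · rw [Dc_interior]
    refine ⟨by simp, fun i => by simp⟩
  · intro x hx t ht0 ht1
    rw [Dc_interior]
    exact Dc_smul hx ht0 ht1

lemma norm3 (x : E3) : ‖x‖ ^ 2 = x 0 ^ 2 + x 1 ^ 2 + x 2 ^ 2 := by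
  rw [EuclideanSpace.real_norm_sq_eq, Fin.sum_univ_three]

lemma Dm_mem {x : E3} : x ∈ Dm ↔ x 0 ^ 2 + x 1 ^ 2 + x 2 ^ 2 < 1 ∧ ∀ i, |x i| < 9 / 10 := by
  unfold Dm
  simp only [mem_ofPred_eq]
  rw [← norm3, sq_lt_one_iff₀ (norm_nonneg x)]

lemma Dc_mem {x : E3} : x ∈ Dc ↔ x 0 ^ 2 + x 1 ^ 2 + x 2 ^ 2 ≤ 1 ∧ ∀ i, |x i| ≤ 9 / 10 := by
  unfold Dc
  simp only [mem_ofPred_eq]
  rw [← norm3, sq_le_one_iff₀ (norm_nonneg x)]

/-- the boundary of the truncated ball is not an ellipsoid -/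
lemma Dc_not_ellipsoid (f : E3 ≃ᵃ[ℝ] E3) : frontier Dc ≠ f '' Metric.sphere (0 : E3) 1 := by
  intro hS
  have hfr : ∀ b : ℝ, |b| ≤ 1 / 10 → (!₂[9/10, b, 0] : E3) ∈ frontier Dc := by
    intro b hb
    rw [Dc_rad.frontier_eq, Dc_interior]
    have hb2 : b ^ 2 ≤ 1 / 100 := by
      have := sq_le_sq' (by linarith [abs_le.1 hb]) (abs_le.1 hb).2
      nlinarith
    constructor
    · rw [Dc_mem]
      constructor
      · simp; nlinarith
      · intro i
        fin_cases i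
        · simp; rw [abs_of_pos (by norm_num)]
        · simp; linarith
        · simp; norm_num
    · rw [Dm_mem]
      rintro ⟨_, h2⟩
      have := h2 0
      simp at this
      rw [abs_of_pos (by norm_num)] at this
      linarith
  set p1 : E3 := !₂[9/10, 1/10, 0] with hp1
  set p2 : E3 := !₂[9/10, -(1/10), 0] with hp2
  set p0 : E3 := !₂[9/10, 0, 0] with hp0
  have m1 : p1 ∈ frontier Dc := hfr (1/10) (by rw [abs_of_pos (by norm_num)])
  have m2 : p2 ∈ frontier Dc := hfr (-(1/10)) (by rw [abs_neg, abs_of_pos (by norm_num)])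
  have m0 : p0 ∈ frontier Dc := hfr 0 (by simp)
  rw [hS] at m1 m2 m0
  obtain ⟨q1, hq1, e1⟩ := m1
  obtain ⟨q2, hq2, e2⟩ := m2
  obtain ⟨q0, hq0, e0⟩ := m0
  have hmid : midpoint ℝ p1 p2 = p0 := by
    rw [midpoint_eq_smul_add]
    ext i
    fin_cases i
    · simp [hp1, hp2, hp0]; norm_num
    · simp [hp1, hp2, hp0]
    · simp [hp1, hp2, hp0]
  have hq : midpoint ℝ q1 q2 = q0 := by
    apply f.injective
    have := f.map_midpoint q1 q2
    rw [this, e1, e2, e0, hmid]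
  have hne : q1 ≠ q2 := by
    rintro rfl
    rw [e1] at e2
    have := congrFun (congrArg WithLp.ofLp e2) 1
    simp [hp1, hp2] at this
    norm_num at this
  rw [mem_sphere_zero_iff_norm] at hq1 hq2 hq0
  rw [midpoint_eq_smul_add] at hq
  have hpar := parallelogram_law_with_norm ℝ q1 q2
  have h3 : ‖q1 + q2‖ = 2 := by
    have h4 : ‖q0‖ = ‖(⅟2:ℝ)‖ * ‖q1 + q2‖ := by rw [← hq, norm_smul]
    rw [hq0] at h4
    simp at h4
    linarith
  have h5 : 0 < ‖q1 - q2‖ := norm_pos_iff.2 (sub_ne_zero.2 hne)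
  rw [h3, hq1, hq2] at hpar
  nlinarith

end Pool.Agent.V1188.Sh
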