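import Pool.Agent.V1188.Sh.Min

set_option autoImplicit false

open MeasureTheory Set Filter Topology

namespace Pool.Agent.V1188.Sh

open Pool.Agent.H283R3.Newt

/-- clipped representative of an `L²` class -/
noncomputable def rep (D : Set E3) (f : Lp ℝ 2 ((volume : Measure E3).restrict D)) : E3 → ℝ :=
  D.indicator (fun x => max 0 (min (f x) 1))

lemma rep_adm {D : Set E3} (hD : MeasurableSet D) (f : Lp ℝ 2 ((volume : Measure E3).restrict D)) :
    Adm D (rep D f) := by
  have hm : Measurable (f : E3 → ℝ) := (Lp.stronglyMeasurable f).measurable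
  refine ⟨?_, fun x => ?_, fun x => ?_⟩
  · unfold rep
    exact Measurable.indicator (by fun_prop) hD
  · unfold rep
    exact indicator_nonneg (fun x _ => le_max_left _ _) x
  · unfold rep
    apply indicator_le_indicator
    simp

/-- the order interval -/
def IC (D : Set E3) : Set (Lp ℝ 2 ((volume : Measure E3).restrict D)) :=
  {f | (∀ᵐ x ∂(volume : Measure E3).restrict D, 0 ≤ f x) ∧
    ∀ᵐ x ∂(volume : Measure E3).restrict D, f x ≤ 1}

lemma rep_ae {D : Set E3} {f : Lp ℝ 2 ((volume : Measure E3).restrict D)} (hf : f ∈ IC D) :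
    ∀ᵐ x ∂(volume : Measure E3).restrict D, (D.indicator (fun _ => (1:ℝ)) x = 1 → True) ∧
      max 0 (min (f x) 1) = f x := by
  filter_upwards [hf.1, hf.2] with x h1 h2
  refine ⟨fun _ => trivial, ?_⟩
  rw [min_eq_left h2, max_eq_right h1]

lemma IC_convex (D : Set E3) : Convex ℝ (IC D) := by
  intro f hf g hg a b ha hb hab
  have e1 := Lp.coeFn_add (a • f) (b • g)
  have e2 := Lp.coeFn_smul a f
  have e3 := Lp.coeFn_smul b g
  constructor
  · filter_upwards [e1, e2, e3, hf.1, hg.1] with x h1 h2 h3 h4 h5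
    rw [h1, Pi.add_apply, h2, h3, Pi.smul_apply, Pi.smul_apply, smul_eq_mul, smul_eq_mul]
    positivity
  · filter_upwards [e1, e2, e3, hf.2, hg.2] with x h1 h2 h3 h4 h5
    rw [h1, Pi.add_apply, h2, h3, Pi.smul_apply, Pi.smul_apply, smul_eq_mul, smul_eq_mul]
    nlinarith

lemma IC_closed {D : Set E3} (hfin : volume D < ⊤) : IsClosed (IC D) := by
  haveI : IsFiniteMeasure ((volume : Measure E3).restrict D) :=
    ⟨by rwa [Measure.restrict_apply_univ]⟩
  have h : IC D = Icc (0 : Lp ℝ 2 ((volume : Measure E3).restrict D)) (Lp.const 2 _ (1:ℝ)) := by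
    ext f
    rw [mem_Icc, ← Lp.coeFn_nonneg, ← Lp.coeFn_le]
    have h0 := Lp.coeFn_const 2 ((volume : Measure E3).restrict D) (1:ℝ)
    constructor
    · rintro ⟨h1, h2⟩
      refine ⟨h1, ?_⟩
      filter_upwards [h2, h0] with x a1 a2
      rw [a2]; exact a1
    · rintro ⟨h1, h2⟩
      refine ⟨h1, ?_⟩
      filter_upwards [h2, h0] with x a1 a2
      rw [a2] at a1; exact a1
  rw [h]
  exact isClosed_Icc

lemma int_rep_sub {D : Set E3} (hD : MeasurableSet D) (hfin : volume D < ⊤)
    {f g : Lp ℝ 2 ((volume : Measure E3).restrict D)} (hf : f ∈ IC D) (hg : g ∈ IC D) :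
    ∃ K : ℝ, 0 ≤ K ∧ K = ‖(indicatorConstLp 2 MeasurableSet.univ (by
      rw [Measure.restrict_apply_univ]; exact hfin.ne) (1:ℝ) :
        Lp ℝ 2 ((volume : Measure E3).restrict D))‖ ∧
      ∫ x, |rep D f x - rep D g x| ≤ K * ‖f - g‖ := by
  set one : Lp ℝ 2 ((volume : Measure E3).restrict D) := indicatorConstLp 2 MeasurableSet.univ (by
      rw [Measure.restrict_apply_univ]; exact hfin.ne) (1:ℝ) with hone
  refine ⟨‖one‖, norm_nonneg _, rfl, ?_⟩
  have h1 : ∫ x, |rep D f x - rep D g x| = inner ℝ |f - g| one := by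
    rw [L2.inner_def]
    have e1 : ∫ x, |rep D f x - rep D g x| = ∫ x in D, |rep D f x - rep D g x| := by
      rw [setIntegral_eq_integral_of_forall_compl_eq_zero]
      intro x hx
      unfold rep
      rw [indicator_of_notMem hx, indicator_of_notMem hx]
      simp
    rw [e1]
    apply integral_congr_ae
    have h0 : (one : E3 → ℝ) =ᵐ[(volume : Measure E3).restrict D] (univ : Set E3).indicator fun _ => (1:ℝ) :=
      indicatorConstLp_coeFn
    filter_upwards [Lp.coeFn_abs (f - g), Lp.coeFn_sub f g, rep_ae hf, rep_ae hg, h0,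
      ae_restrict_mem hD] with x a1 a2 a3 a4 a5 a6
    rw [a1, a2, a5]
    unfold rep
    rw [indicator_of_mem a6, indicator_of_mem a6, a3.2, a4.2]
    simp
  rw [h1]
  have h2 := real_inner_le_norm |f - g| one
  rw [norm_abs_eq_norm] at h2
  linarith [mul_comm ‖one‖ ‖f - g‖]

lemma En_congr (c : ℝ) {g g' : E3 → ℝ} (h : g =ᵐ[volume] g') : En c g = En c g' := by
  have hV : V g = V g' := by
    ext x
    unfold V
    apply integral_congr_ae
    filter_upwards [h] with y hy
    rw [hy]
  unfold En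
  rw [hV, integral_congr_ae h]
  congr 2
  apply integral_congr_ae
  filter_upwards [h] with y hy
  rw [hy]

lemma rep_comb_ae {D : Set E3} (hD : MeasurableSet D)
    {f g : Lp ℝ 2 ((volume : Measure E3).restrict D)} (hf : f ∈ IC D) (hg : g ∈ IC D)
    {a b : ℝ} (ha : 0 ≤ a) (hb : 0 ≤ b) (hab : a + b = 1) :
    rep D (a • f + b • g) =ᵐ[volume] fun x => a * rep D f x + b * rep D g x := by
  have hc := IC_convex D hf hg ha hb hab
  have h1 : ∀ᵐ x ∂(volume : Measure E3).restrict D,
      rep D (a • f + b • g) x = a * rep D f x + b * rep D g x := by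
    filter_upwards [Lp.coeFn_add (a • f) (b • g), Lp.coeFn_smul a f, Lp.coeFn_smul b g,
      rep_ae hf, rep_ae hg, rep_ae hc, ae_restrict_mem hD] with x a1 a2 a3 a4 a5 a6 a7
    unfold rep
    rw [indicator_of_mem a7, indicator_of_mem a7, indicator_of_mem a7, a4.2, a5.2, a6.2, a1,
      Pi.add_apply, a2, a3, Pi.smul_apply, Pi.smul_apply, smul_eq_mul, smul_eq_mul]
  rw [ae_restrict_iff' hD] at h1
  filter_upwards [h1] with x hx
  by_cases hxD : x ∈ D
  · exact hx hxD
  · unfold rep
    rw [indicator_of_notMem hxD, indicator_of_notMem hxD, indicator_of_notMem hxD]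
    simp

lemma rep_toLp_ae {D : Set E3} (hD : MeasurableSet D) {g : E3 → ℝ} (hg : Adm D g)
    (hm : MemLp g 2 ((volume : Measure E3).restrict D)) :
    hm.toLp g ∈ IC D ∧ rep D (hm.toLp g) =ᵐ[volume] g := by
  have e := hm.coeFn_toLp
  constructor
  · constructor
    · filter_upwards [e] with x hx
      rw [hx]; exact hg.nonneg x
    · filter_upwards [e] with x hx
      rw [hx]; exact hg.le_one x
  · have h1 : ∀ᵐ x ∂(volume : Measure E3).restrict D, rep D (hm.toLp g) x = g x := by
      filter_upwards [e, ae_restrict_mem hD] with x hx hxD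
      unfold rep
      rw [indicator_of_mem hxD, hx, min_eq_left (hg.le_one x), max_eq_right (hg.nonneg x)]
    rw [ae_restrict_iff' hD] at h1
    filter_upwards [h1] with x hx
    by_cases hxD : x ∈ D
    · exact hx hxD
    · unfold rep
      rw [indicator_of_notMem hxD, hg.zero_off hxD]

/-- existence of a minimiser -/
theorem exists_min {D : Set E3} (hD : MeasurableSet D) {R : ℝ} (hR : 0 < R)
    (hDR : D ⊆ Metric.ball 0 R) (c : ℝ) :
    ∃ g, Adm D g ∧ ∀ g', Adm D g' → En c g ≤ En c g' := by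
  have hfin : volume D < ⊤ := (measure_mono hDR).trans_lt measure_ball_lt_top
  haveI : IsFiniteMeasure ((volume : Measure E3).restrict D) :=
    ⟨by rwa [Measure.restrict_apply_univ]⟩
  -- lower bound
  set L : ℝ := 2 * Real.pi * R ^ 2 + |c| with hL
  have hL0 : 0 ≤ L := by positivity
  have hadm0 : Adm D (fun _ => (0:ℝ)) :=
    ⟨measurable_const, fun _ => le_refl _, fun x => indicator_nonneg (fun _ _ => zero_le_one) x⟩
  have hbelow : ∀ g, Adm D g → - (L * (volume D).toReal) ≤ En c g := by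
    intro g hg
    have h1 := En_lip hR hDR c hg hadm0
    have h0 : En c (fun _ => (0:ℝ)) = 0 := by simp [En]
    rw [h0, sub_zero] at h1
    have h2 : ∫ x, |g x - 0| ≤ (volume D).toReal := by
      have h3 : ∫ x, |g x - 0| ≤ ∫ x, D.indicator (fun _ => (1:ℝ)) x := by
        apply integral_mono_of_nonneg (ae_of_all _ fun x => abs_nonneg _)
        · exact (integrable_indicator_iff hD).2 (integrableOn_const hfin.ne)
        · refine ae_of_all _ fun x => ?_
          simp only [sub_zero]
          rw [abs_of_nonneg (hg.nonneg x)]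
          exact hg.le x
      rw [integral_indicator hD, setIntegral_const, smul_eq_mul, mul_one, measureReal_def] at h3
      exact h3
    have h4 := neg_abs_le (En c g)
    have h5 : L * ∫ x, |g x - 0| ≤ L * (volume D).toReal := mul_le_mul_of_nonneg_left h2 hL0
    linarith
  set Φ : Lp ℝ 2 ((volume : Measure E3).restrict D) → ℝ := fun f => En c (rep D f) with hΦ
  set m : ℝ := sInf (Φ '' IC D) with hm
  have hneIC : (IC D).Nonempty := by
    have hmem : MemLp (fun _ : E3 => (0:ℝ)) 2 ((volume : Measure E3).restrict D) := memLp_const 0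
    exact ⟨_, (rep_toLp_ae hD hadm0 hmem).1⟩
  have hbdd : BddBelow (Φ '' IC D) := by
    refine ⟨- (L * (volume D).toReal), ?_⟩
    rintro _ ⟨f, hf, rfl⟩
    exact hbelow _ (rep_adm hD f)
  set S : ℕ → Set (Lp ℝ 2 ((volume : Measure E3).restrict D)) :=
    fun n => {f | f ∈ IC D ∧ Φ f ≤ m + 1 / ((n:ℝ) + 1)} with hS
  have hconvΦ : ConvexOn ℝ (IC D) Φ := by
    refine ⟨IC_convex D, fun f hf g hg a b ha hb hab => ?_⟩
    simp only [hΦ, smul_eq_mul]
    rw [En_congr c (rep_comb_ae hD hf hg ha hb hab)]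
    exact En_convex hR hDR c (rep_adm hD f) (rep_adm hD g) ha hb hab
  obtain ⟨K, hK0, hK⟩ : ∃ K : ℝ, 0 ≤ K ∧ ∀ f ∈ IC D, ∀ g ∈ IC D, |Φ f - Φ g| ≤ K * ‖f - g‖ := by
    refine ⟨L * ‖(indicatorConstLp 2 MeasurableSet.univ (by
      rw [Measure.restrict_apply_univ]; exact hfin.ne) (1:ℝ) :
        Lp ℝ 2 ((volume : Measure E3).restrict D))‖, by positivity, fun f hf g hg => ?_⟩
    obtain ⟨K', hK'0, hK'e, hK'⟩ := int_rep_sub hD hfin hf hg
    rw [← hK'e]
    have h1 := En_lip hR hDR c (rep_adm hD f) (rep_adm hD g)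
    calc |Φ f - Φ g| ≤ L * ∫ x, |rep D f x - rep D g x| := h1
      _ ≤ L * (K' * ‖f - g‖) := mul_le_mul_of_nonneg_left hK' hL0
      _ = L * K' * ‖f - g‖ := by ring
  have hcont : ContinuousOn Φ (IC D) := by
    have : LipschitzOnWith (Real.toNNReal K) Φ (IC D) := by
      rw [lipschitzOnWith_iff_dist_le_mul]
      intro f hf g hg
      rw [Real.dist_eq, dist_eq_norm, Real.coe_toNNReal K hK0]
      exact hK f hf g hg
    exact this.continuousOn
  obtain ⟨f, hf⟩ := nested S
    (fun n => by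
      have hlt : m < m + 1 / ((n:ℝ) + 1) := by
        have : (0:ℝ) < 1 / ((n:ℝ) + 1) := by positivity
        linarith
      obtain ⟨_, ⟨f, hf, rfl⟩, h2⟩ := exists_lt_of_csInf_lt (hneIC.image Φ) hlt
      exact ⟨f, hf, h2.le⟩)
    (fun n => by
      have : S n = IC D ∩ Φ ⁻¹' (Iic (m + 1 / ((n:ℝ) + 1))) := by
        ext f; simp [hS]
      rw [this]
      exact hcont.preimage_isClosed_of_isClosed (IC_closed hfin) isClosed_Iic)
    (fun n => by
      have : S n = {f ∈ IC D | Φ f ≤ m + 1 / ((n:ℝ) + 1)} := rfl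
      rw [this]
      exact hconvΦ.convex_le _)
    (by
      intro n n' hnn f hf
      refine ⟨hf.1, hf.2.trans ?_⟩
      have : (n:ℝ) ≤ n' := by exact_mod_cast hnn
      gcongr)
    (B := ‖(indicatorConstLp 2 MeasurableSet.univ (by
      rw [Measure.restrict_apply_univ]; exact hfin.ne) (1:ℝ) :
        Lp ℝ 2 ((volume : Measure E3).restrict D))‖)
    (by
      intro f hf
      apply Lp.norm_le_norm_of_ae_le
      have h0 : ((indicatorConstLp 2 MeasurableSet.univ (by
        rw [Measure.restrict_apply_univ]; exact hfin.ne) (1:ℝ) :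
        Lp ℝ 2 ((volume : Measure E3).restrict D)) : E3 → ℝ) =ᵐ[(volume : Measure E3).restrict D]
          (univ : Set E3).indicator fun _ => (1:ℝ) := indicatorConstLp_coeFn
      filter_upwards [hf.1.1, hf.1.2, h0] with x a1 a2 a3
      rw [a3, Real.norm_of_nonneg a1]
      simpa using a2)
  refine ⟨rep D f, rep_adm hD f, fun g' hg' => ?_⟩
  have h1 : Φ f ≤ m := by
    apply le_of_forall_pos_lt_add
    intro ε hε
    obtain ⟨n, hn⟩ := exists_nat_one_div_lt hε
    exact (hf n).2.trans_lt (by linarith)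
  have hmem : MemLp g' 2 ((volume : Measure E3).restrict D) := by
    apply MemLp.of_bound hg'.meas.aestronglyMeasurable 1
    refine ae_of_all _ fun x => ?_
    rw [Real.norm_of_nonneg (hg'.nonneg x)]
    exact hg'.le_one x
  obtain ⟨h2, h3⟩ := rep_toLp_ae hD hg' hmem
  have h4 : m ≤ Φ (hmem.toLp g') := csInf_le hbdd ⟨_, h2, rfl⟩
  have h5 : Φ (hmem.toLp g') = En c g' := En_congr c h3
  rw [h5] at h4
  exact h1.trans h4

end Pool.Agent.V1188.Sh
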