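import Pool.Agent.V1188.Sh.Refl

set_option autoImplicit false

open MeasureTheory Set Filter Topology
open scoped Pointwise

namespace Pool.Agent.V1188.Sh

open Pool.Agent.H283R3.Newt

/-- radially regular compact sets -/
structure Rad (A : Set E3) : Prop where
  cpt : IsCompact A
  zero : (0:E3) ∈ interior A
  star : ∀ x ∈ A, ∀ t : ℝ, 0 ≤ t → t < 1 → t • x ∈ interior A

lemma Rad.frontier_eq {A : Set E3} (h : Rad A) : frontier A = A \ interior A := by
  rw [frontier, h.cpt.isClosed.closure_eq]

lemma Rad.closure_interior {A : Set E3} (h : Rad A) : closure (interior A) = A := by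
  apply Subset.antisymm
  · exact (closure_mono interior_subset).trans h.cpt.isClosed.closure_eq.le
  · intro x hx
    have h1 : Tendsto (fun n : ℕ => (1 - 1 / ((n:ℝ) + 1)) • x) atTop (𝓝 ((1 - 0 : ℝ) • x)) :=
      (tendsto_const_nhds.sub tendsto_one_div_add_atTop_nhds_zero_nat).smul_const x
    rw [sub_zero, one_smul] at h1
    apply mem_closure_of_tendsto h1
    refine Eventually.of_forall fun n => ?_
    have h2 : (0:ℝ) < 1 / ((n:ℝ) + 1) := by positivity
    have h3 : (1:ℝ) / ((n:ℝ) + 1) ≤ 1 := by
      rw [div_le_one (by positivity)]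
      have : (0:ℝ) ≤ n := Nat.cast_nonneg n
      linarith
    exact h.star x hx _ (by linarith) (by linarith)

lemma Rad.frontier_interior {A : Set E3} (h : Rad A) : frontier (interior A) = frontier A := by
  rw [h.frontier_eq, frontier, h.closure_interior, interior_interior]

lemma Rad.connected {A : Set E3} (h : Rad A) : IsConnected (interior A) := by
  have hs : StarConvex ℝ (0:E3) (interior A) := by
    rw [starConvex_iff_forall_pos h.zero]
    intro y hy a b ha hb hab
    rw [smul_zero, zero_add]
    exact h.star y (interior_subset hy) b hb.le (by linarith)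
  exact (hs.isPathConnected h.zero).isConnected

lemma Rad.ne_zero {A : Set E3} {x : E3} (h : Rad A) (hx : x ∈ frontier A) : x ≠ 0 := by
  rintro rfl
  rw [h.frontier_eq] at hx
  exact hx.2 h.zero

lemma Rad.inj {A : Set E3} (h : Rad A) {x y : E3} (hx : x ∈ frontier A) (hy : y ∈ frontier A)
    (hxy : ‖x‖⁻¹ • x = ‖y‖⁻¹ • y) : ‖y‖ ≤ ‖x‖ := by
  by_contra hlt
  push Not at hlt
  have hx0 := norm_pos_iff.2 (h.ne_zero hx)
  have hy0 := norm_pos_iff.2 (h.ne_zero hy)
  have h1 : x = (‖x‖ * ‖y‖⁻¹) • y := by
    rw [mul_smul, ← hxy, smul_smul, mul_inv_cancel₀ hx0.ne', one_smul]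
  rw [h.frontier_eq] at hx hy
  apply hx.2
  rw [h1]
  apply h.star y hy.1 _ (by positivity)
  rw [mul_inv_lt_iff₀ hy0, one_mul]
  exact hlt

theorem Rad.homeo {A : Set E3} (h : Rad A) :
    Nonempty (frontier A ≃ₜ Metric.sphere (0 : E3) 1) := by
  set f : frontier A → Metric.sphere (0 : E3) 1 := fun x => ⟨‖(x:E3)‖⁻¹ • (x:E3), by
    rw [mem_sphere_zero_iff_norm, norm_smul, norm_inv, norm_norm,
      inv_mul_cancel₀ (norm_pos_iff.2 (h.ne_zero x.2)).ne']⟩ with hf
  have hfc : Continuous f := by
    apply Continuous.subtype_mk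
    have h1 : ∀ x : frontier A, ‖(x:E3)‖ ≠ 0 := fun x => (norm_pos_iff.2 (h.ne_zero x.2)).ne'
    fun_prop (disch := assumption)
  have hinj : Function.Injective f := by
    intro x y hxy
    have h1 : ‖(x:E3)‖⁻¹ • (x:E3) = ‖(y:E3)‖⁻¹ • (y:E3) := congrArg Subtype.val hxy
    have h2 : ‖(x:E3)‖ = ‖(y:E3)‖ := le_antisymm (h.inj y.2 x.2 h1.symm) (h.inj x.2 y.2 h1)
    rw [h2] at h1
    have hy0 : ‖(y:E3)‖⁻¹ ≠ 0 := inv_ne_zero (norm_pos_iff.2 (h.ne_zero y.2)).ne'
    exact Subtype.ext (smul_right_injective E3 hy0 h1)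
  have hsurj : Function.Surjective f := by
    rintro ⟨u, hu⟩
    have hu1 : ‖u‖ = 1 := mem_sphere_zero_iff_norm.1 hu
    obtain ⟨B, hB⟩ := h.cpt.isBounded.exists_norm_le
    have hT : IsCompact {t : ℝ | 0 ≤ t ∧ t • u ∈ A} := by
      apply Metric.isCompact_of_isClosed_isBounded
      · apply IsClosed.inter isClosed_Ici
        exact h.cpt.isClosed.preimage (by fun_prop : Continuous fun t : ℝ => t • u)
      · apply (Metric.isBounded_Icc (0:ℝ) B).subset
        rintro t ⟨ht0, htA⟩
        have := hB _ htA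
        rw [norm_smul, hu1, mul_one, Real.norm_of_nonneg ht0] at this
        exact ⟨ht0, this⟩
    obtain ⟨t, ht, hmax⟩ := hT.exists_isMaxOn ⟨0, le_refl _, by
      rw [zero_smul]; exact interior_subset h.zero⟩ continuous_id.continuousOn
    have hni : t • u ∉ interior A := by
      intro hint
      have hcont : Continuous fun s : ℝ => s • u := by fun_prop
      have hn : (fun s : ℝ => s • u) ⁻¹' (interior A) ∈ 𝓝 t :=
        (isOpen_interior.preimage hcont).mem_nhds hint
      obtain ⟨ε, hε, hball⟩ := Metric.mem_nhds_iff.1 hn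
      have h3 : t + ε / 2 ∈ {t : ℝ | 0 ≤ t ∧ t • u ∈ A} := by
        refine ⟨by have := ht.1; positivity, ?_⟩
        apply interior_subset
        apply hball
        rw [Metric.mem_ball, Real.dist_eq]
        rw [show t + ε / 2 - t = ε / 2 by ring, abs_of_pos (by linarith)]
        linarith
      have h4 := hmax h3
      have h5 : t + ε / 2 ≤ t := h4
      linarith
    have htpos : 0 < t := by
      rcases ht.1.lt_or_eq with h5 | h5
      · exact h5
      · exfalso; apply hni; rw [← h5, zero_smul]; exact h.zero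
    have hfr : t • u ∈ frontier A := by
      rw [h.frontier_eq]; exact ⟨ht.2, hni⟩
    refine ⟨⟨t • u, hfr⟩, ?_⟩
    apply Subtype.ext
    simp only [hf]
    rw [norm_smul, hu1, mul_one, Real.norm_of_nonneg htpos.le, smul_smul,
      inv_mul_cancel₀ htpos.ne', one_smul]
  haveI : CompactSpace (frontier A) :=
    isCompact_iff_compactSpace.1 (h.cpt.of_isClosed_subset isClosed_frontier
      (by rw [h.frontier_eq]; exact sdiff_subset))
  exact ⟨hfc.homeoOfEquivCompactToT2 (f := Equiv.ofBijective f ⟨hinj, hsurj⟩)⟩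

/-- the boundary of a radially regular set is a null set -/
lemma Rad.null {A : Set E3} (h : Rad A) : volume (A \ interior A) = 0 := by
  have hfin : volume A < ⊤ := h.cpt.measure_lt_top
  have h1 : ∀ t : ℝ, 0 ≤ t → t < 1 → ENNReal.ofReal (t ^ 3) * volume A ≤ volume (interior A) := by
    intro t ht0 ht1
    have h2 : t • A ⊆ interior A := by
      rintro _ ⟨x, hx, rfl⟩
      exact h.star x hx t ht0 ht1
    have h3 := measure_mono (μ := (volume : Measure E3)) h2
    rw [Measure.addHaar_smul] at h3
    simp only [finrank_euclideanSpace, Fintype.card_fin] at h3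
    rwa [abs_of_nonneg (by positivity)] at h3
  have h4 : volume A ≤ volume (interior A) := by
    have hlim : Tendsto (fun n : ℕ => ENNReal.ofReal ((1 - 1 / ((n:ℝ) + 1)) ^ 3) * volume A) atTop
        (𝓝 (ENNReal.ofReal ((1 - 0) ^ 3) * volume A)) := by
      apply ENNReal.Tendsto.mul_const
      · apply ENNReal.tendsto_ofReal
        exact (tendsto_const_nhds.sub tendsto_one_div_add_atTop_nhds_zero_nat).pow 3
      · right; exact hfin.ne
    simp only [sub_zero, one_pow, ENNReal.ofReal_one, one_mul] at hlim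
    apply le_of_tendsto hlim
    refine Eventually.of_forall fun n => ?_
    have h2 : (0:ℝ) < 1 / ((n:ℝ) + 1) := by positivity
    have h3 : (1:ℝ) / ((n:ℝ) + 1) ≤ 1 := by
      rw [div_le_one (by positivity)]
      have : (0:ℝ) ≤ n := Nat.cast_nonneg n
      linarith
    exact h1 _ (by linarith) (by linarith)
  rw [measure_sdiff interior_subset isOpen_interior.measurableSet.nullMeasurableSet
    ((measure_mono interior_subset).trans_lt hfin).ne]
  exact tsub_eq_zero_of_le h4

end Pool.Agent.V1188.Sh
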