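import Pool.Agent.V1188.Sh.Dom

set_option autoImplicit false

open MeasureTheory Set Filter Topology

namespace Pool.Agent.V1188.Sh

open Pool.Agent.H283R3.Newt

/-- affine involution -/
lemma mp_aff (L : E3 ≃ₗᵢ[ℝ] E3) (v : E3) :
    MeasurePreserving (fun x => L x + v) (volume : Measure E3) volume :=
  (measurePreserving_add_right volume v).comp L.measurePreserving

lemma iso_aff (L : E3 ≃ₗᵢ[ℝ] E3) (v : E3) : Isometry (fun x => L x + v) := by
  apply Isometry.of_dist_eq
  intro x y
  rw [dist_add_right, L.dist_map]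

/-- flipping one coordinate -/
noncomputable def flipL (i : Fin 3) : E3 ≃ₗᵢ[ℝ] E3 :=
  LinearIsometryEquiv.piLpCongrRight 2
    (fun j => if j = i then LinearIsometryEquiv.neg ℝ else LinearIsometryEquiv.refl ℝ ℝ)

lemma flipL_same (i : Fin 3) (x : E3) : flipL i x i = - x i := by
  simp [flipL]

lemma flipL_other {i j : Fin 3} (h : j ≠ i) (x : E3) : flipL i x j = x j := by
  simp [flipL, h]

/-- swapping two coordinates -/
noncomputable def swapL (i j : Fin 3) : E3 ≃ₗᵢ[ℝ] E3 :=
  LinearIsometryEquiv.piLpCongrLeft 2 ℝ ℝ (Equiv.swap i j)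

lemma swapL_apply (i j k : Fin 3) (x : E3) : swapL i j x k = x (Equiv.swap i j k) := by
  simp [swapL, LinearIsometryEquiv.piLpCongrLeft_apply, Equiv.piCongrLeft']

lemma Dm_mono {x y : E3} (h : ∀ j, |x j| ≤ |y j|) (hy : y ∈ Dm) : x ∈ Dm := by
  rw [Dm_mem] at hy ⊢
  refine ⟨?_, fun i => (h i).trans_lt (hy.2 i)⟩
  have h0 := sq_le_sq.2 (h 0)
  have h1 := sq_le_sq.2 (h 1)
  have h2 := sq_le_sq.2 (h 2)
  linarith [hy.1]

/-- moving one coordinate towards zero (or to its opposite) -/
lemma flip_move {c : ℝ} {g : E3 → ℝ} (h : Sol Dm c g) {x y : E3} (hy : V g y = c) (i : Fin 3)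
    (hx : ∀ k, k ≠ i → x k = y k) (ht : |x i| ≤ |y i|) : V g x = c := by
  by_cases hxy : x i = y i
  · have : x = y := by
      ext k
      by_cases hk : k = i
      · rw [hk]; exact hxy
      · exact hx k hk
    rw [this]; exact hy
  -- sign
  obtain ⟨ε, hε, hε1, hε2⟩ : ∃ ε : ℝ, (ε = 1 ∨ ε = -1) ∧ ε * x i < ε * y i ∧ 0 ≤ ε * (x i + y i) := by
    rcases le_total 0 (y i) with h0 | h0
    · refine ⟨1, Or.inl rfl, ?_, ?_⟩
      · rw [abs_of_nonneg h0] at ht
        have := (le_abs_self (x i)).trans ht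
        rw [one_mul, one_mul]
        exact lt_of_le_of_ne this hxy
      · rw [abs_of_nonneg h0] at ht
        have := (neg_le_abs (x i)).trans ht
        linarith
    · refine ⟨-1, Or.inr rfl, ?_, ?_⟩
      · rw [abs_of_nonpos h0] at ht
        have := (neg_le_abs (x i)).trans ht
        have h1 : y i ≤ x i := by linarith
        have h2 : y i < x i := lt_of_le_of_ne h1 (Ne.symm hxy)
        linarith
      · rw [abs_of_nonpos h0] at ht
        have := (le_abs_self (x i)).trans ht
        linarith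
  have hεε : ε * ε = 1 := by rcases hε with rfl | rfl <;> norm_num
  set v : E3 := EuclideanSpace.single i (x i + y i) with hv
  have hvi : v i = x i + y i := by simp [hv]
  have hvk : ∀ k, k ≠ i → v k = 0 := by intro k hk; simp [hv, hk]
  set s : ℝ := ε * (x i + y i) / 2 with hs
  have hs0 : 0 ≤ s := by positivity
  set σ : E3 → E3 := fun z => flipL i z + v with hσ
  have hσi : ∀ z, σ z i = - z i + (x i + y i) := by
    intro z; simp only [hσ]; rw [PiLp.add_apply, flipL_same, hvi]
  have hσk : ∀ z k, k ≠ i → σ z k = z k := by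
    intro z k hk; simp only [hσ]; rw [PiLp.add_apply, flipL_other hk, hvk k hk, add_zero]
  have hinv : ∀ z, σ (σ z) = z := by
    intro z
    ext k
    by_cases hk : k = i
    · rw [hk, hσi, hσi]; ring
    · rw [hσk _ _ hk, hσk _ _ hk]
  set H : Set E3 := {z | ε * z i < s} with hH
  have hHo : IsOpen H := isOpen_lt (by fun_prop) continuous_const
  have hfix : ∀ z ∈ closure H, z ∉ H → σ z = z := by
    intro z hz hzn
    have h1 : ε * z i ≤ s := by
      have hcl : IsClosed {z : E3 | ε * z i ≤ s} := isClosed_le (by fun_prop) continuous_const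
      have hsub : H ⊆ {z : E3 | ε * z i ≤ s} := by
        intro w hw
        have h9 : ε * w i < s := hw
        exact h9.le
      exact closure_minimal hsub hcl hz
    have h2 : ε * z i = s := le_antisymm h1 (not_lt.1 hzn)
    ext k
    by_cases hk : k = i
    · rw [hk, hσi]
      have h3 : z i = ε * s := by
        calc z i = (ε * ε) * z i := by rw [hεε, one_mul]
          _ = ε * (ε * z i) := by ring
          _ = ε * s := by rw [h2]
      have h4 : ε * s = (x i + y i) / 2 := by
        rw [hs]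
        calc ε * (ε * (x i + y i) / 2) = (ε * ε) * (x i + y i) / 2 := by ring
          _ = (x i + y i) / 2 := by rw [hεε, one_mul]
      rw [h3, h4]; ring
    · rw [hσk _ _ hk]
  have hDH : ∀ z ∈ H, σ z ∈ Dm → z ∈ Dm := by
    intro z hz hzD
    apply Dm_mono _ hzD
    intro k
    by_cases hk : k = i
    · rw [hk]
      have hz' : ε * z i < s := hz
      have h5 : ε * σ z i = 2 * s - ε * z i := by rw [hσi, hs]; ring
      have h6 : |z i| = |ε * z i| := by
        rcases hε with rfl | rfl <;> simp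
      have h7 : |σ z i| = |ε * σ z i| := by
        rcases hε with rfl | rfl <;> simp
      rw [h6, h7, h5]
      rw [abs_le]
      have h8 : 0 ≤ 2 * s - ε * z i := by linarith
      rw [abs_of_nonneg h8]
      constructor <;> linarith
    · rw [hσk _ _ hk]
  have hxH : x ∈ H := by
    show ε * x i < s
    rw [hs]; linarith
  have hσx : σ x = y := by
    ext k
    by_cases hk : k = i
    · rw [hk, hσi]; ring
    · rw [hσk _ _ hk, hx k hk]
  have key := h.refl one_pos Dm_sub_ball (iso_aff (flipL i) v) (mp_aff (flipL i) v) hinv hHo hfix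
    hDH x hxH
  have key' : V g (σ x) ≤ V g x := key
  rw [hσx, hy] at key'
  exact le_antisymm (h.le x) key'

/-- moving mass from a large coordinate to a smaller one -/
lemma swap_move {c : ℝ} {g : E3 → ℝ} (h : Sol Dm c g) {x y : E3} (hy : V g y = c) {i j : Fin 3}
    (hij : i ≠ j) (hx : ∀ k, k ≠ i → k ≠ j → x k = y k) (hsum : x i + x j = y i + y j)
    (h1 : y j ≤ x i) (h2 : x i ≤ y i) : V g x = c := by
  by_cases hxy : x i = y i
  · have : x = y := by
      ext k
      by_cases hk : k = i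
      · rw [hk]; exact hxy
      · by_cases hk' : k = j
        · rw [hk']; linarith
        · exact hx k hk hk'
    rw [this]; exact hy
  have h2' : x i < y i := lt_of_le_of_ne h2 hxy
  set s : ℝ := x i - y j with hs
  have hs0 : 0 ≤ s := by linarith
  set v : E3 := EuclideanSpace.single i s - EuclideanSpace.single j s with hv
  have hvi : v i = s := by simp [hv, hij]
  have hvj : v j = -s := by simp [hv, Ne.symm hij]
  have hvk : ∀ k, k ≠ i → k ≠ j → v k = 0 := by intro k hk hk'; simp [hv, hk, hk']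
  set σ : E3 → E3 := fun z => swapL i j z + v with hσ
  have hσi : ∀ z, σ z i = z j + s := by
    intro z; simp only [hσ]; rw [PiLp.add_apply, swapL_apply, hvi, Equiv.swap_apply_left]
  have hσj : ∀ z, σ z j = z i - s := by
    intro z; simp only [hσ]; rw [PiLp.add_apply, swapL_apply, hvj, Equiv.swap_apply_right]; ring
  have hσk : ∀ z k, k ≠ i → k ≠ j → σ z k = z k := by
    intro z k hk hk'
    simp only [hσ]
    rw [PiLp.add_apply, swapL_apply, hvk k hk hk', add_zero, Equiv.swap_apply_of_ne_of_ne hk hk']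
  have hinv : ∀ z, σ (σ z) = z := by
    intro z
    ext k
    by_cases hk : k = i
    · rw [hk, hσi, hσj]; ring
    · by_cases hk' : k = j
      · rw [hk', hσj, hσi]; ring
      · rw [hσk _ _ hk hk', hσk _ _ hk hk']
  set H : Set E3 := {z | z i - z j < s} with hH
  have hHo : IsOpen H := isOpen_lt (by fun_prop) continuous_const
  have hfix : ∀ z ∈ closure H, z ∉ H → σ z = z := by
    intro z hz hzn
    have h3 : z i - z j ≤ s := by
      have hcl : IsClosed {z : E3 | z i - z j ≤ s} := isClosed_le (by fun_prop) continuous_const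
      have hsub : H ⊆ {z : E3 | z i - z j ≤ s} := by
        intro w hw
        have h9 : w i - w j < s := hw
        exact h9.le
      exact closure_minimal hsub hcl hz
    have h4 : z i - z j = s := le_antisymm h3 (not_lt.1 hzn)
    ext k
    by_cases hk : k = i
    · rw [hk, hσi]; linarith
    · by_cases hk' : k = j
      · rw [hk', hσj]; linarith
      · rw [hσk _ _ hk hk']
  have hDH : ∀ z ∈ H, σ z ∈ Dm → z ∈ Dm := by
    intro z hz hzD
    have hz' : z i - z j < s := hz
    rw [Dm_mem] at hzD ⊢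
    have a1 := hσi z
    have a2 := hσj z
    have b1 := abs_lt.1 (hzD.2 i)
    have b2 := abs_lt.1 (hzD.2 j)
    constructor
    · have hsq : z i ^ 2 + z j ^ 2 ≤ σ z i ^ 2 + σ z j ^ 2 := by
        rw [a1, a2]
        nlinarith
      have hsumeq : ∀ w : E3, w 0 ^ 2 + w 1 ^ 2 + w 2 ^ 2 = ∑ k, w k ^ 2 := by
        intro w; rw [Fin.sum_univ_three]
      have hlt := hzD.1
      rw [hsumeq] at hlt ⊢
      have hsplit : ∀ w : E3, ∑ k, w k ^ 2 = w i ^ 2 + w j ^ 2 + ∑ k ∈ (Finset.univ.erase i).erase j, w k ^ 2 := by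
        intro w
        rw [← Finset.add_sum_erase Finset.univ _ (Finset.mem_univ i),
          ← Finset.add_sum_erase (Finset.univ.erase i) _ (Finset.mem_erase.2 ⟨hij.symm, Finset.mem_univ j⟩)]
        ring
      rw [hsplit] at hlt ⊢
      have hrest : ∑ k ∈ (Finset.univ.erase i).erase j, z k ^ 2 =
          ∑ k ∈ (Finset.univ.erase i).erase j, σ z k ^ 2 := by
        apply Finset.sum_congr rfl
        intro k hk
        rw [Finset.mem_erase, Finset.mem_erase] at hk
        rw [hσk z k hk.2.1 hk.1]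
      rw [hrest]
      linarith
    · intro k
      by_cases hk : k = i
      · rw [hk, abs_lt]; constructor <;> linarith
      · by_cases hk' : k = j
        · rw [hk', abs_lt]; constructor <;> linarith
        · rw [← hσk z k hk hk']; exact hzD.2 k
  have hxH : x ∈ H := by
    show x i - x j < s
    rw [hs]; linarith
  have hσx : σ x = y := by
    ext k
    by_cases hk : k = i
    · rw [hk, hσi]; linarith
    · by_cases hk' : k = j
      · rw [hk', hσj]; linarith
      · rw [hσk _ _ hk hk', hx k hk hk']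
  have key := h.refl one_pos Dm_sub_ball (iso_aff (swapL i j) v) (mp_aff (swapL i j) v) hinv hHo hfix
    hDH x hxH
  have key' : V g (σ x) ≤ V g x := key
  rw [hσx, hy] at key'
  exact le_antisymm (h.le x) key'

lemma mix_move {c : ℝ} {g : E3 → ℝ} (h : Sol Dm c g) {x y : E3} (hy : V g y = c) {i j : Fin 3}
    (hij : i ≠ j) (hx : ∀ k, k ≠ i → k ≠ j → x k = y k) {θ : ℝ} (h0 : 0 ≤ θ) (h1 : θ ≤ 1)
    (hi : x i = (1 - θ) * y i + θ * y j) (hj : x j = θ * y i + (1 - θ) * y j) : V g x = c := by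
  rcases le_total (y j) (y i) with hle | hle
  · apply swap_move h hy hij hx
    · rw [hi, hj]; ring
    · rw [hi]; nlinarith
    · rw [hi]; nlinarith
  · apply swap_move h hy hij.symm (fun k hk hk' => hx k hk' hk)
    · rw [hi, hj]; ring
    · rw [hj]; nlinarith
    · rw [hj]; nlinarith

lemma box_move {c : ℝ} {g : E3 → ℝ} (h : Sol Dm c g) {x y : E3} (hy : V g y = c)
    (hx : ∀ k, |x k| ≤ |y k|) : V g x = c := by
  have h1 : V g (!₂[x 0, y 1, y 2] : E3) = c := by
    apply flip_move h hy 0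
    · intro k hk
      fin_cases k
      · exact absurd rfl hk
      · simp
      · simp
    · simpa using hx 0
  have h2 : V g (!₂[x 0, x 1, y 2] : E3) = c := by
    apply flip_move h h1 1
    · intro k hk
      fin_cases k
      · simp
      · exact absurd rfl hk
      · simp
    · simpa using hx 1
  apply flip_move h h2 2
  · intro k hk
    fin_cases k
    · simp
    · simp
    · exact absurd rfl hk
  · simpa using hx 2

lemma mixnum {a b d t : ℝ} (ha0 : 0 ≤ a) (hb0 : 0 ≤ b) (hd0 : 0 ≤ d) (hsum : 0 < a + b + d)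
    (ht0 : 0 ≤ t) (ht1 : t < 1) : ∃ θ a1 b1 a2 d2 b3 d3 : ℝ, 0 ≤ θ ∧ θ ≤ 1 ∧
      a1 = (1 - θ) * a + θ * b ∧ b1 = θ * a + (1 - θ) * b ∧
      a2 = (1 - θ) * a1 + θ * d ∧ d2 = θ * a1 + (1 - θ) * d ∧
      b3 = (1 - θ) * b1 + θ * d2 ∧ d3 = θ * b1 + (1 - θ) * d2 ∧
      0 < a2 ∧ 0 < b3 ∧ 0 < d3 ∧ t * a < a2 ∧ t * b < b3 ∧ t * d < d3 := by
  obtain ⟨θ, hθ⟩ : ∃ θ : ℝ, θ = (1 - t) / 4 := ⟨_, rfl⟩
  have hθ0 : 0 < θ := by rw [hθ]; linarith
  have hθ1 : θ < 1 := by rw [hθ]; linarith
  obtain ⟨a1, ha1⟩ : ∃ a1, a1 = (1 - θ) * a + θ * b := ⟨_, rfl⟩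
  obtain ⟨b1, hb1⟩ : ∃ b1, b1 = θ * a + (1 - θ) * b := ⟨_, rfl⟩
  obtain ⟨a2, ha2⟩ : ∃ a2, a2 = (1 - θ) * a1 + θ * d := ⟨_, rfl⟩
  obtain ⟨d2, hd2⟩ : ∃ d2, d2 = θ * a1 + (1 - θ) * d := ⟨_, rfl⟩
  obtain ⟨b3, hb3⟩ : ∃ b3, b3 = (1 - θ) * b1 + θ * d2 := ⟨_, rfl⟩
  obtain ⟨d3, hd3⟩ : ∃ d3, d3 = θ * b1 + (1 - θ) * d2 := ⟨_, rfl⟩
  have hθ' : 0 < 1 - θ := by linarith
  have hq : t < (1 - θ) ^ 2 := by
    rw [hθ]; nlinarith
  have hb1n : 0 ≤ b1 := by rw [hb1]; positivity
  have ha1n : 0 ≤ a1 := by rw [ha1]; positivity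
  have hd2n : 0 ≤ d2 := by rw [hd2]; positivity
  have hpos3 : ∀ p q r : ℝ, 0 < p → 0 < q → 0 < r → 0 < p * a + q * b + r * d := by
    intro p q r hp hq hr
    rcases lt_or_eq_of_le ha0 with h1 | h1
    · have := mul_pos hp h1
      have := mul_nonneg hq.le hb0
      have := mul_nonneg hr.le hd0
      linarith
    · rcases lt_or_eq_of_le hb0 with h2 | h2
      · have := mul_nonneg hp.le ha0
        have := mul_pos hq h2
        have := mul_nonneg hr.le hd0
        linarith
      · have h3 : 0 < d := by linarith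
        have := mul_nonneg hp.le ha0
        have := mul_nonneg hq.le hb0
        have := mul_pos hr h3
        linarith
  have hpa : 0 < a2 := by
    have := hpos3 ((1 - θ) ^ 2) ((1 - θ) * θ) θ (by positivity) (by positivity) hθ0
    rw [ha2, ha1]; linarith
  have hbd : 0 < b1 + d2 := by
    have := hpos3 (θ + θ * (1 - θ)) ((1 - θ) + θ ^ 2) (1 - θ) (by positivity) (by positivity) hθ'
    rw [hb1, hd2, ha1]; linarith
  have hpb : 0 < b3 := by
    rw [hb3]
    rcases lt_or_eq_of_le hb1n with h1 | h1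
    · have := mul_pos hθ' h1
      have := mul_nonneg hθ0.le hd2n
      linarith
    · have h2 : 0 < d2 := by linarith
      have := mul_nonneg hθ'.le hb1n
      have := mul_pos hθ0 h2
      linarith
  have hpd : 0 < d3 := by
    rw [hd3]
    rcases lt_or_eq_of_le hb1n with h1 | h1
    · have := mul_pos hθ0 h1
      have := mul_nonneg hθ'.le hd2n
      linarith
    · have h2 : 0 < d2 := by linarith
      have := mul_nonneg hθ0.le hb1n
      have := mul_pos hθ' h2
      linarith
  have hla : (1 - θ) ^ 2 * a ≤ a2 := by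
    rw [ha2, ha1]
    have := mul_nonneg (mul_nonneg hθ'.le hθ0.le) hb0
    have := mul_nonneg hθ0.le hd0
    linarith
  have hlb : (1 - θ) ^ 2 * b ≤ b3 := by
    rw [hb3, hb1]
    have := mul_nonneg (mul_nonneg hθ'.le hθ0.le) ha0
    have := mul_nonneg hθ0.le hd2n
    linarith
  have hld : (1 - θ) ^ 2 * d ≤ d3 := by
    rw [hd3, hd2]
    have := mul_nonneg (mul_nonneg hθ'.le hθ0.le) ha1n
    have := mul_nonneg hθ0.le hb1n
    linarith
  have hfin : ∀ u w : ℝ, 0 ≤ u → 0 < w → (1 - θ) ^ 2 * u ≤ w → t * u < w := by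
    intro u w hu hw huw
    rcases lt_or_eq_of_le hu with h1 | h1
    · have := mul_lt_mul_of_pos_right hq h1
      linarith
    · rw [← h1]; simpa using hw
  exact ⟨θ, a1, b1, a2, d2, b3, d3, hθ0.le, hθ1.le, ha1, hb1, ha2, hd2, hb3, hd3, hpa, hpb, hpd,
    hfin a a2 ha0 hpa hla, hfin b b3 hb0 hpb hlb, hfin d d3 hd0 hpd hld⟩

/-- the key structural property of the contact set -/
lemma star_move {c : ℝ} {g : E3 → ℝ} (h : Sol Dm c g) {y : E3} (hy : V g y = c) (hy0 : y ≠ 0)
    {t : ℝ} (ht0 : 0 ≤ t) (ht1 : t < 1) : t • y ∈ interior {x | V g x = c} := by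
  have ha0 : 0 ≤ |y 0| := abs_nonneg _
  have hb0 : 0 ≤ |y 1| := abs_nonneg _
  have hd0 : 0 ≤ |y 2| := abs_nonneg _
  have hsum : 0 < |y 0| + |y 1| + |y 2| := by
    rcases (add_nonneg (add_nonneg ha0 hb0) hd0).lt_or_eq with h1 | h1
    · exact h1
    · exfalso
      apply hy0
      have e0 : y 0 = 0 := abs_eq_zero.1 (by linarith : |y 0| = 0)
      have e1 : y 1 = 0 := abs_eq_zero.1 (by linarith : |y 1| = 0)
      have e2 : y 2 = 0 := abs_eq_zero.1 (by linarith : |y 2| = 0)
      ext k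
      fin_cases k
      · exact e0
      · exact e1
      · exact e2
  have hK0 : V g (!₂[|y 0|, |y 1|, |y 2|] : E3) = c := by
    apply box_move h hy
    intro k
    fin_cases k <;> simp
  obtain ⟨θ, a1, b1, a2, d2, b3, d3, hθ0, hθ1, ha1, hb1, ha2, hd2, hb3, hd3, hpa, hpb, hpd,
    f0, f1, f2⟩ := mixnum ha0 hb0 hd0 hsum ht0 ht1
  have hK1 : V g (!₂[a1, b1, |y 2|] : E3) = c := by
    refine mix_move h hK0 (i := 0) (j := 1) (by decide) ?_ hθ0 hθ1 ?_ ?_
    · intro k hk hk'
      fin_cases k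
      · exact absurd rfl hk
      · exact absurd rfl hk'
      · rfl
    · exact ha1
    · exact hb1
  have hK2 : V g (!₂[a2, b1, d2] : E3) = c := by
    refine mix_move h hK1 (i := 0) (j := 2) (by decide) ?_ hθ0 hθ1 ?_ ?_
    · intro k hk hk'
      fin_cases k
      · exact absurd rfl hk
      · rfl
      · exact absurd rfl hk'
    · exact ha2
    · exact hd2
  have hK3 : V g (!₂[a2, b3, d3] : E3) = c := by
    refine mix_move h hK2 (i := 1) (j := 2) (by decide) ?_ hθ0 hθ1 ?_ ?_
    · intro k hk hk'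
      fin_cases k
      · rfl
      · exact absurd rfl hk
      · exact absurd rfl hk'
    · exact hb3
    · exact hd3
  rw [mem_interior]
  refine ⟨{x : E3 | |x 0| < a2} ∩ {x : E3 | |x 1| < b3} ∩ {x : E3 | |x 2| < d3}, ?_, ?_, ?_⟩
  · rintro x ⟨⟨x0, x1⟩, x2⟩
    have x0' : |x 0| < a2 := x0
    have x1' : |x 1| < b3 := x1
    have x2' : |x 2| < d3 := x2
    apply box_move h hK3
    intro k
    fin_cases k
    · show |x 0| ≤ |a2|
      rw [abs_of_pos hpa]; exact x0'.le
    · show |x 1| ≤ |b3|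
      rw [abs_of_pos hpb]; exact x1'.le
    · show |x 2| ≤ |d3|
      rw [abs_of_pos hpd]; exact x2'.le
  · refine ((isOpen_lt ?_ continuous_const).inter (isOpen_lt ?_ continuous_const)).inter
      (isOpen_lt ?_ continuous_const) <;> fun_prop
  · refine ⟨⟨?_, ?_⟩, ?_⟩
    · show |(t • y) 0| < a2
      rw [PiLp.smul_apply, smul_eq_mul, abs_mul, abs_of_nonneg ht0]; exact f0
    · show |(t • y) 1| < b3
      rw [PiLp.smul_apply, smul_eq_mul, abs_mul, abs_of_nonneg ht0]; exact f1
    · show |(t • y) 2| < d3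
      rw [PiLp.smul_apply, smul_eq_mul, abs_mul, abs_of_nonneg ht0]; exact f2

end Pool.Agent.V1188.Sh
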