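import Pool.Agent.H283R3.Newt3

set_option autoImplicit false

open MeasureTheory Set Filter Topology

namespace Pool.Agent.V1188.Sh

open Pool.Agent.H283R3.Newt

lemma kr_nonneg' {r : ℝ} (hr : 0 < r) {ζ : ℝ} (hζ : 0 ≤ ζ) : ζ ≠ 0 → 0 ≤ kr r ζ := by
  intro h
  exact kr_nonneg hr (lt_of_le_of_ne hζ (Ne.symm h))

/-- if `τ ≤ 0` a.e. on a ball then the potential is at most its ball mean -/
lemma sub_mean {R : ℝ} (hR : 0 < R) {τ : E3 → ℝ} (h : Good R τ) {r : ℝ} (hr : 0 < r) (x : E3)
    (hτ : ∀ᵐ y ∂(volume : Measure E3), y ∈ Metric.ball x r → τ y ≤ 0) :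
    V τ x * vb r ≤ ∫ z in Metric.ball x r, V τ z := by
  have h1 := h.mean_diff hR hr x
  have h2 : ∫ y, τ y * kr r (dist x y) ≤ 0 := by
    apply integral_nonpos_of_ae
    have hne : ∀ᵐ y : E3, y ≠ x := by simp [ae_iff]
    filter_upwards [hτ, hne] with y hy hyx
    show τ y * kr r (dist x y) ≤ 0
    by_cases hb : y ∈ Metric.ball x r
    · apply mul_nonpos_of_nonpos_of_nonneg (hy hb)
      exact kr_nonneg hr (dist_pos.2 hyx.symm)
    · rw [kr_zero hr, mul_zero]
      rw [Metric.mem_ball, not_lt, dist_comm] at hb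
      exact hb
  have hv := vb_pos hr
  have h3 : V τ x ≤ (∫ z in Metric.ball x r, V τ z) / vb r := by linarith
  rwa [le_div_iff₀ hv] at h3

lemma exists_larger_norm (x : E3) {r : ℝ} (hr : 0 < r) : ∃ z ∈ Metric.ball x r, ‖x‖ < ‖z‖ := by
  set e : E3 := EuclideanSpace.single 0 (r / 2) with he
  have hne : ‖e‖ = r / 2 := by
    rw [he, PiLp.norm_single, Real.norm_of_nonneg (by linarith)]
  have hpar := parallelogram_law_with_norm ℝ x e
  by_cases h : ‖x‖ < ‖x + e‖
  · exact ⟨x + e, by rw [Metric.mem_ball, dist_eq_norm]; simp only [add_sub_cancel_left]; linarith, h⟩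
  · refine ⟨x - e, ?_, ?_⟩
    · rw [Metric.mem_ball, dist_eq_norm]
      have : x - e - x = -e := by abel
      rw [this, norm_neg]; linarith
    · by_contra h'
      push Not at h h'
      have a1 : ‖x + e‖ * ‖x + e‖ ≤ ‖x‖ * ‖x‖ := by gcongr
      have a2 : ‖x - e‖ * ‖x - e‖ ≤ ‖x‖ * ‖x‖ := by gcongr
      have a3 : 0 < ‖e‖ * ‖e‖ := by rw [hne]; positivity
      linarith

/-- maximum principle for Newtonian potentials -/
theorem max_principle {R : ℝ} (hR : 0 < R) {τ : E3 → ℝ} (h : Good R τ) {U : Set E3}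
    (hU : IsOpen U) {k : ℝ} (hk : 0 ≤ k) (hτ : ∀ᵐ y ∂(volume : Measure E3), y ∈ U → τ y ≤ 0)
    (hb : ∀ x ∈ closure U, x ∉ U → V τ x ≤ k) : ∀ x ∈ U, V τ x ≤ k := by
  by_contra hc
  push Not at hc
  obtain ⟨x0, hx0, hlt⟩ := hc
  have hV := h.V_cont hR
  have hpos : 0 < V τ x0 := lt_of_le_of_lt hk hlt
  have hAc : IsCompact (closure U ∩ {x | V τ x0 ≤ V τ x}) :=
    (h.compact_ge hR hpos).inter_left isClosed_closure
  obtain ⟨x1, hx1, hmax⟩ := hAc.exists_isMaxOn ⟨x0, subset_closure hx0, le_refl (V τ x0)⟩ hV.continuousOn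
  have h01 : V τ x0 ≤ V τ x1 := hx1.2
  have hM : ∀ x ∈ closure U, V τ x ≤ V τ x1 := by
    intro x hx
    by_cases hx' : V τ x0 ≤ V τ x
    · exact hmax ⟨hx, hx'⟩
    · push Not at hx'
      linarith
  have hBc : IsCompact (closure U ∩ {x | V τ x1 ≤ V τ x}) :=
    (h.compact_ge hR (by linarith : 0 < V τ x1)).inter_left isClosed_closure
  obtain ⟨x2, hx2, hmax2⟩ := hBc.exists_isMaxOn ⟨x1, hx1.1, le_refl (V τ x1)⟩ continuous_norm.continuousOn
  have hx2eq : V τ x2 = V τ x1 := le_antisymm (hM x2 hx2.1) hx2.2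
  have hx2U : x2 ∈ U := by
    by_contra hn
    have := hb x2 hx2.1 hn
    linarith
  obtain ⟨r, hr, hball⟩ := Metric.isOpen_iff.1 hU x2 hx2U
  have key := sub_mean hR h hr x2 (by
    filter_upwards [hτ] with y hy hyb
    exact hy (hball hyb))
  have hfin : volume (Metric.ball x2 r) ≠ ⊤ := measure_ball_lt_top.ne
  have hint : IntegrableOn (V τ) (Metric.ball x2 r) :=
    (hV.continuousOn.integrableOn_compact (isCompact_closedBall x2 r)).mono_set
      Metric.ball_subset_closedBall
  have hconst : ∫ z in Metric.ball x2 r, V τ x1 = V τ x1 * vb r := by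
    rw [setIntegral_const, smul_eq_mul, measureReal_def, vol_ball hr,
      ENNReal.toReal_ofReal (vb_pos hr).le, mul_comm]
  have hint2 : IntegrableOn (fun _ : E3 => V τ x1) (Metric.ball x2 r) :=
    integrableOn_const hfin
  have hz : ∫ z in Metric.ball x2 r, (V τ x1 - V τ z) = 0 := by
    apply le_antisymm
    · rw [integral_sub hint2 hint, hconst]
      rw [hx2eq] at key
      linarith
    · apply setIntegral_nonneg Metric.isOpen_ball.measurableSet
      intro z hz
      have := hM z (subset_closure (hball hz))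
      linarith
  rw [setIntegral_eq_zero_iff_of_nonneg_ae] at hz
  · have heq := Measure.eqOn_open_of_ae_eq hz Metric.isOpen_ball
      (by fun_prop) (by fun_prop)
    obtain ⟨z, hzb, hzn⟩ := exists_larger_norm x2 hr
    have h5 := heq hzb
    simp only [Pi.zero_apply] at h5
    have h6 : z ∈ closure U ∩ {x | V τ x1 ≤ V τ x} :=
      ⟨subset_closure (hball hzb), by show V τ x1 ≤ V τ z; linarith⟩
    have h7 := hmax2 h6
    simp only [mem_setOf_eq] at h7
    linarith
  · rw [EventuallyLE, ae_restrict_iff' Metric.isOpen_ball.measurableSet]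
    refine ae_of_all _ fun z hz' => ?_
    have := hM z (subset_closure (hball hz'))
    simp only [Pi.zero_apply]
    linarith
  · exact hint2.sub hint

end Pool.Agent.V1188.Sh
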