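import Pool.Agent.H283R3.Newt3

set_option autoImplicit false

open MeasureTheory Set Filter Topology

namespace Pool.Agent.V1188.Sh

open Pool.Agent.H283R3.Newt

lemma gauss_int {b : ℝ} (hb : 0 < b) :
    ∫ v : E3, Real.exp (-b * ‖v‖ ^ 2) = (Real.pi / b) ^ (3 / 2 : ℝ) := by
  rw [GaussianFourier.integral_rexp_neg_mul_sq_norm hb]
  norm_num

lemma gauss_integrable {b : ℝ} (hb : 0 < b) : Integrable (fun v : E3 => Real.exp (-b * ‖v‖ ^ 2)) := by
  by_contra h
  have h1 := integral_undef h
  rw [gauss_int hb] at h1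
  have : 0 < (Real.pi / b) ^ (3 / 2 : ℝ) := Real.rpow_pos_of_pos (div_pos Real.pi_pos hb) _
  linarith

lemma mid_identity (x y z : E3) : ‖z - x‖ ^ 2 + ‖z - y‖ ^ 2 =
    2 * ‖z - (2:ℝ)⁻¹ • (x + y)‖ ^ 2 + ‖x - y‖ ^ 2 / 2 := by
  have h := parallelogram_law_with_norm ℝ (z - x) (z - y)
  have e1 : z - x + (z - y) = (2:ℝ) • (z - (2:ℝ)⁻¹ • (x + y)) := by
    rw [smul_sub, smul_smul]; norm_num; rw [two_smul]; abel
  have e2 : z - x - (z - y) = -(x - y) := by abel
  rw [e1, e2, norm_smul, norm_neg, Real.norm_of_nonneg (by norm_num : (0:ℝ) ≤ 2)] at h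
  linear_combination (-(1/2:ℝ)) * h

/-- the Gaussian kernel -/
noncomputable def G (x : E3) (p : ℝ × E3) : ℝ := Real.exp (-(2 * p.1 ^ 2) * ‖p.2 - x‖ ^ 2)

lemma G_mul (x y z : E3) (s : ℝ) : G x (s, z) * G y (s, z) =
    Real.exp (-(4 * s ^ 2) * ‖z - (2:ℝ)⁻¹ • (x + y)‖ ^ 2) * Real.exp (-‖x - y‖ ^ 2 * s ^ 2) := by
  unfold G
  rw [← Real.exp_add, ← Real.exp_add]
  congr 1
  have := mid_identity x y z
  simp only
  linear_combination (-(2 * s ^ 2)) * this

lemma G_meas : Measurable (fun q : E3 × (ℝ × E3) => G q.1 q.2) := by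
  unfold G; fun_prop

lemma inner_int {s : ℝ} (hs : 0 < s) (x y : E3) :
    ∫ z, s ^ 3 * (G x (s, z) * G y (s, z)) = (Real.pi / 4) ^ (3 / 2 : ℝ) * Real.exp (-‖x - y‖ ^ 2 * s ^ 2) := by
  simp_rw [G_mul]
  rw [integral_const_mul, integral_mul_const,
    integral_sub_right_eq_self (fun z : E3 => Real.exp (-(4 * s ^ 2) * ‖z‖ ^ 2)), gauss_int (by positivity)]
  have h1 : (Real.pi / (4 * s ^ 2)) ^ (3 / 2 : ℝ) = (Real.pi / 4) ^ (3 / 2 : ℝ) / s ^ 3 := by
    rw [← div_div, Real.div_rpow (by positivity) (by positivity)]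
    congr 1
    rw [← Real.rpow_natCast, ← Real.rpow_mul hs.le, ← Real.rpow_natCast]
    norm_num
  rw [h1]
  field_simp

lemma inner_integrable {s : ℝ} (hs : 0 < s) (x y : E3) :
    Integrable (fun z => s ^ 3 * (G x (s, z) * G y (s, z))) := by
  simp_rw [G_mul]
  exact (((gauss_integrable (b := 4 * s ^ 2) (by positivity)).comp_sub_right _).mul_const _).const_mul _

/-- parameter measure -/
noncomputable def rho : Measure (ℝ × E3) := (volume.restrict (Ioi (0:ℝ))).prod volume

instance : SFinite rho := by unfold rho; infer_instance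

lemma ker_meas (x y : E3) : Measurable (fun p : ℝ × E3 => p.1 ^ 3 * (G x p * G y p)) := by
  unfold G; fun_prop

lemma ker_pos {x y : E3} {p : ℝ × E3} (hp : 0 < p.1) : 0 ≤ p.1 ^ 3 * (G x p * G y p) := by
  unfold G; positivity

lemma rho_pos : ∀ᵐ p ∂rho, 0 < p.1 := by
  unfold rho
  have : ∀ᵐ s ∂(volume.restrict (Ioi (0:ℝ))), 0 < s := by
    rw [ae_restrict_iff' measurableSet_Ioi]; exact ae_of_all _ fun s hs => hs
  exact Measure.quasiMeasurePreserving_fst.ae this

lemma ker_integrable {x y : E3} (hxy : x ≠ y) :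
    Integrable (fun p : ℝ × E3 => p.1 ^ 3 * (G x p * G y p)) rho := by
  unfold rho
  rw [integrable_prod_iff (ker_meas x y).aestronglyMeasurable]
  constructor
  · rw [ae_restrict_iff' measurableSet_Ioi]
    exact ae_of_all _ fun s hs => inner_integrable hs x y
  · have hd : 0 < ‖x - y‖ ^ 2 := by
      have := norm_pos_iff.2 (sub_ne_zero.2 hxy); positivity
    have h1 : IntegrableOn (fun s : ℝ => (Real.pi / 4) ^ (3 / 2 : ℝ) * Real.exp (-‖x - y‖ ^ 2 * s ^ 2)) (Ioi 0) :=
      ((integrable_exp_neg_mul_sq hd).const_mul _).integrableOn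
    refine h1.congr ?_
    rw [EventuallyEq, ae_restrict_iff' measurableSet_Ioi]
    refine ae_of_all _ fun s hs => ?_
    rw [← inner_int hs x y]
    apply integral_congr_ae
    refine ae_of_all _ fun z => ?_
    simp only
    rw [Real.norm_of_nonneg (ker_pos (p := (s, z)) hs)]

lemma ker_integral {x y : E3} (hxy : x ≠ y) :
    ∫ p, p.1 ^ 3 * (G x p * G y p) ∂rho =
      ((Real.pi / 4) ^ (3 / 2 : ℝ) * Real.sqrt Real.pi / 2) * (dist x y)⁻¹ := by
  have h := ker_integrable hxy
  unfold rho at *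
  rw [integral_prod _ h]
  have h1 : ∫ s in Ioi (0:ℝ), ∫ z, s ^ 3 * (G x (s, z) * G y (s, z)) =
      ∫ s in Ioi (0:ℝ), (Real.pi / 4) ^ (3 / 2 : ℝ) * Real.exp (-‖x - y‖ ^ 2 * s ^ 2) := by
    apply setIntegral_congr_fun measurableSet_Ioi
    intro s hs
    exact inner_int hs x y
  rw [h1, integral_const_mul, integral_gaussian_Ioi, Real.sqrt_div Real.pi_pos.le,
    Real.sqrt_sq (norm_nonneg _), ← dist_eq_norm]
  ring

/-- the energy of a bounded compactly supported density -/
theorem energy_eq {R : ℝ} (hR : 0 < R) {τ : E3 → ℝ} (h : Good R τ) :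
    ((Real.pi / 4) ^ (3 / 2 : ℝ) * Real.sqrt Real.pi / 2) * ∫ x, τ x * V τ x =
      ∫ p, p.1 ^ 3 * (∫ x, τ x * G x p) ^ 2 ∂rho := by
  set c : ℝ := (Real.pi / 4) ^ (3 / 2 : ℝ) * Real.sqrt Real.pi / 2 with hc
  have hc0 : 0 < c := by
    have := Real.pi_pos
    rw [hc]; positivity
  have hτm := h.meas
  set F : (E3 × E3) → (ℝ × E3) → ℝ := fun q p => p.1 ^ 3 * ((τ q.1 * G q.1 p) * (τ q.2 * G q.2 p)) with hF
  have hne : ∀ᵐ q ∂((volume : Measure E3).prod (volume : Measure E3)), q.1 ≠ q.2 := by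
    have hms : MeasurableSet {q : E3 × E3 | q.1 ≠ q.2} := by
      apply IsOpen.measurableSet
      exact isOpen_ne_fun continuous_fst continuous_snd
    rw [Measure.ae_prod_iff_ae_ae hms]
    refine ae_of_all _ fun x => ?_
    have : ∀ᵐ y : E3, y ≠ x := by simp [ae_iff]
    filter_upwards [this] with y hy
    exact hy.symm
  have hFm : AEStronglyMeasurable (Function.uncurry F)
      (((volume : Measure E3).prod (volume : Measure E3)).prod rho) := by
    apply Measurable.aestronglyMeasurable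
    simp only [hF, Function.uncurry_def]
    unfold G
    fun_prop
  have hkint : Integrable (fun q : E3 × E3 => τ q.1 * τ q.2 * (dist q.1 q.2)⁻¹)
      ((volume : Measure E3).prod (volume : Measure E3)) := by
    rw [integrable_prod_iff (by fun_prop)]
    constructor
    · refine ae_of_all _ fun x => ?_
      have := (h.int_kern hR x).const_mul (τ x)
      simpa [mul_assoc] using this
    · have hbd : ∀ x, ∫ y, ‖τ x * τ y * (dist x y)⁻¹‖ ≤ |τ x| * (2 * Real.pi * R ^ 2) := by
        intro x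
        have e1 : ∀ y, ‖τ x * τ y * (dist x y)⁻¹‖ = |τ x| * (|τ y| * (dist x y)⁻¹) := by
          intro y
          rw [Real.norm_eq_abs, abs_mul, abs_mul, abs_of_nonneg (inv_nonneg.2 dist_nonneg), mul_assoc]
        simp_rw [e1]
        rw [integral_const_mul]
        gcongr
        have hg : Good R (fun y => |τ y|) := ⟨by fun_prop, fun y => by rw [abs_abs]; exact h.bd y⟩
        have := hg.V_abs_le hR x
        unfold V at this
        exact (le_abs_self _).trans (this.trans (Nn_le hR (norm_nonneg _)))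
      refine ((h.integrable hR).abs.mul_const (2 * Real.pi * R ^ 2)).mono' ?_ (ae_of_all _ fun x => ?_)
      · have : Measurable (fun q : E3 × E3 => ‖τ q.1 * τ q.2 * (dist q.1 q.2)⁻¹‖) := by fun_prop
        exact (this.stronglyMeasurable.integral_prod_right').aestronglyMeasurable
      · rw [Real.norm_of_nonneg (integral_nonneg fun y => norm_nonneg _)]
        exact hbd x
  have hFeq : ∀ q : E3 × E3, ∀ p, F q p = τ q.1 * τ q.2 * (p.1 ^ 3 * (G q.1 p * G q.2 p)) := by
    intro q p; simp only [hF]; ring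
  have hFint : Integrable (Function.uncurry F)
      (((volume : Measure E3).prod (volume : Measure E3)).prod rho) := by
    rw [integrable_prod_iff hFm]
    constructor
    · filter_upwards [hne] with q hq
      have := (ker_integrable hq).const_mul (τ q.1 * τ q.2)
      simp only [Function.uncurry_apply_pair, hFeq]
      exact this
    · have hk2 := (hkint.norm).const_mul c
      refine hk2.congr ?_
      filter_upwards [hne] with q hq
      simp only [Function.uncurry_apply_pair, hFeq]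
      have e2 : ∫ p, ‖τ q.1 * τ q.2 * (p.1 ^ 3 * (G q.1 p * G q.2 p))‖ ∂rho =
          ∫ p, ‖τ q.1 * τ q.2‖ * (p.1 ^ 3 * (G q.1 p * G q.2 p)) ∂rho := by
        apply integral_congr_ae
        filter_upwards [rho_pos] with p hp
        rw [norm_mul, Real.norm_of_nonneg (ker_pos hp)]
      rw [e2, integral_const_mul, ker_integral hq, norm_mul, Real.norm_of_nonneg
        (inv_nonneg.2 dist_nonneg : 0 ≤ (dist q.1 q.2)⁻¹)]
      ring
  have hswap := integral_integral_swap hFint
  have hL : ∫ q, ∫ p, F q p ∂rho ∂((volume : Measure E3).prod (volume : Measure E3)) =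
      c * ∫ x, τ x * V τ x := by
    have e3 : ∫ q, ∫ p, F q p ∂rho ∂((volume : Measure E3).prod (volume : Measure E3)) =
        ∫ q, c * (τ q.1 * τ q.2 * (dist q.1 q.2)⁻¹) ∂((volume : Measure E3).prod (volume : Measure E3)) := by
      apply integral_congr_ae
      filter_upwards [hne] with q hq
      simp only [hFeq]
      rw [integral_const_mul, ker_integral hq]
      ring
    rw [e3, integral_const_mul, integral_prod _ hkint]
    congr 1
    apply integral_congr_ae
    refine ae_of_all _ fun x => ?_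
    simp only [V]
    rw [← integral_const_mul]
    congr 1
    ext y
    ring
  have hRr : ∫ p, ∫ q, F q p ∂((volume : Measure E3).prod (volume : Measure E3)) ∂rho =
      ∫ p, p.1 ^ 3 * (∫ x, τ x * G x p) ^ 2 ∂rho := by
    congr 1
    ext p
    simp only [hF]
    rw [integral_const_mul, integral_prod_mul (fun x => τ x * G x p) (fun x => τ x * G x p)]
    ring
  rw [← hL, hswap, hRr]

/-- the energy is nonnegative -/
theorem energy_nonneg {R : ℝ} (hR : 0 < R) {τ : E3 → ℝ} (h : Good R τ) :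
    0 ≤ ∫ x, τ x * V τ x := by
  have h1 := energy_eq hR h
  have hc0 : 0 < (Real.pi / 4) ^ (3 / 2 : ℝ) * Real.sqrt Real.pi / 2 := by
    have := Real.pi_pos
    positivity
  have h2 : 0 ≤ ∫ p, p.1 ^ 3 * (∫ x, τ x * G x p) ^ 2 ∂rho := by
    apply integral_nonneg_of_ae
    filter_upwards [rho_pos] with p hp
    show 0 ≤ p.1 ^ 3 * (∫ x, τ x * G x p) ^ 2
    positivity
  rw [← h1] at h2
  exact nonneg_of_mul_nonneg_right h2 hc0

end Pool.Agent.V1188.Sh
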