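import Pool.Agent.V1188.Sh.MP
import Pool.Agent.V1188.Sh.PSD

set_option autoImplicit false

open MeasureTheory Set Filter Topology

namespace Pool.Agent.V1188.Sh

open Pool.Agent.H283R3.Newt

/-- nested bounded closed convex sets in a Hilbert space have a common point -/
theorem nested {H : Type*} [NormedAddCommGroup H] [InnerProductSpace ℝ H] [CompleteSpace H]
    (S : ℕ → Set H) (hne : ∀ n, (S n).Nonempty) (hcl : ∀ n, IsClosed (S n))
    (hconv : ∀ n, Convex ℝ (S n)) (hanti : Antitone S) {B : ℝ} (hB : ∀ v ∈ S 0, ‖v‖ ≤ B) :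
    ∃ v, ∀ n, v ∈ S n := by
  have h1 : ∀ n, ∃ v ∈ S n, ∀ w ∈ S n, ‖v‖ ≤ ‖w‖ := by
    intro n
    obtain ⟨v, hv, he⟩ := exists_norm_eq_iInf_of_complete_convex (hne n) (hcl n).isComplete (hconv n) (0:H)
    refine ⟨v, hv, fun w hw => ?_⟩
    rw [zero_sub, norm_neg] at he
    rw [he]
    have : (⨅ w : S n, ‖(0:H) - w‖) ≤ ‖(0:H) - (⟨w, hw⟩ : S n)‖ :=
      ciInf_le ⟨0, by rintro _ ⟨a, rfl⟩; exact norm_nonneg _⟩ _
    simpa using this
  choose v hv hmin using h1
  have hmono : Monotone (fun n => ‖v n‖) := by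
    intro m n hmn
    exact hmin m _ (hanti hmn (hv n))
  have hbdd : ∀ n, ‖v n‖ ≤ B := fun n => hB _ (hanti (Nat.zero_le n) (hv n))
  have hlim := tendsto_atTop_ciSup hmono ⟨B, by rintro _ ⟨n, rfl⟩; exact hbdd n⟩
  set A := ⨆ n, ‖v n‖ with hA
  have hle : ∀ n, ‖v n‖ ≤ A := fun n => hmono.ge_of_tendsto hlim n
  have hdist : ∀ n m, n ≤ m → dist (v n) (v m) ≤ Real.sqrt (2 * (A ^ 2 - ‖v n‖ ^ 2)) := by
    intro n m hnm
    have hmid : (1/2:ℝ) • v n + (1/2:ℝ) • v m ∈ S n :=
      hconv n (hv n) (hanti hnm (hv m)) (by norm_num) (by norm_num) (by norm_num)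
    have h2 := hmin n _ hmid
    have h3 := parallelogram_law_with_norm ℝ (v n) (v m)
    have h4 : (1/2:ℝ) • v n + (1/2:ℝ) • v m = (1/2:ℝ) • (v n + v m) := by rw [smul_add]
    rw [h4, norm_smul, Real.norm_of_nonneg (by norm_num)] at h2
    have h5 := hle m
    apply Real.le_sqrt_of_sq_le
    rw [dist_eq_norm]
    have h6 := norm_nonneg (v n)
    have h7 := norm_nonneg (v m)
    nlinarith [norm_nonneg (v n + v m)]
  have hlim0 : Tendsto (fun n => Real.sqrt (2 * (A ^ 2 - ‖v n‖ ^ 2))) atTop (𝓝 0) := by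
    have h8 : Tendsto (fun n => 2 * (A ^ 2 - ‖v n‖ ^ 2)) atTop (𝓝 (2 * (A ^ 2 - A ^ 2))) :=
      (tendsto_const_nhds.sub (hlim.pow 2)).const_mul 2
    have h9 := h8.sqrt
    simpa using h9
  have hc : CauchySeq v := cauchySeq_of_le_tendsto_0' _ hdist hlim0
  obtain ⟨x, hx⟩ := cauchySeq_tendsto_of_complete hc
  refine ⟨x, fun n => ?_⟩
  apply (hcl n).mem_of_tendsto hx
  filter_upwards [eventually_ge_atTop n] with m hm
  exact hanti hm (hv m)

/-- admissible densities -/
structure Adm (D : Set E3) (g : E3 → ℝ) : Prop where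
  meas : Measurable g
  nonneg : ∀ x, 0 ≤ g x
  le : ∀ x, g x ≤ D.indicator 1 x

lemma Adm.zero_off {D : Set E3} {g : E3 → ℝ} (h : Adm D g) {x : E3} (hx : x ∉ D) : g x = 0 := by
  have h1 := h.le x
  rw [indicator_of_notMem hx] at h1
  exact le_antisymm h1 (h.nonneg x)

lemma Adm.le_one {D : Set E3} {g : E3 → ℝ} (h : Adm D g) (x : E3) : g x ≤ 1 := by
  refine (h.le x).trans ?_
  unfold indicator
  split_ifs <;> simp

lemma Adm.good {D : Set E3} {g : E3 → ℝ} (h : Adm D g) {R : ℝ} (hD : D ⊆ Metric.ball 0 R) :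
    Good R g := by
  refine ⟨h.meas, fun y => ?_⟩
  rw [abs_of_nonneg (h.nonneg y)]
  refine (h.le y).trans ?_
  exact indicator_le_indicator_of_subset hD (fun _ => zero_le_one) y

lemma Adm.sub_good {D D' : Set E3} {g g' : E3 → ℝ} (h : Adm D g) (h' : Adm D' g') {R : ℝ}
    (hD : D ⊆ Metric.ball 0 R) (hD' : D' ⊆ Metric.ball 0 R) : Good R (fun y => g y - g' y) := by
  refine ⟨h.meas.sub h'.meas, fun y => ?_⟩
  have e1 := (h.good hD).bd y
  have e2 := (h'.good hD').bd y
  rw [abs_of_nonneg (h.nonneg y)] at e1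
  rw [abs_of_nonneg (h'.nonneg y)] at e2
  rw [abs_le]
  constructor <;> linarith [h.nonneg y, h'.nonneg y]

lemma Adm.comb {D : Set E3} {g g' : E3 → ℝ} (h : Adm D g) (h' : Adm D g') {a b : ℝ} (ha : 0 ≤ a)
    (hb : 0 ≤ b) (hab : a + b = 1) : Adm D (fun y => a * g y + b * g' y) := by
  refine ⟨by have := h.meas; have := h'.meas; fun_prop, fun x => ?_, fun x => ?_⟩
  · have := h.nonneg x; have := h'.nonneg x; positivity
  · have e1 := mul_le_mul_of_nonneg_left (h.le x) ha
    have e2 := mul_le_mul_of_nonneg_left (h'.le x) hb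
    calc a * g x + b * g' x ≤ a * D.indicator 1 x + b * D.indicator 1 x := by linarith
      _ = D.indicator 1 x := by rw [← add_mul, hab, one_mul]

lemma V_sub {R : ℝ} (hR : 0 < R) {τ τ' : E3 → ℝ} (h : Good R τ) (h' : Good R τ') (x : E3) :
    V (fun y => τ y - τ' y) x = V τ x - V τ' x := by
  unfold V
  rw [← integral_sub (h.int_kern hR x) (h'.int_kern hR x)]
  congr 1; ext y; ring

lemma V_comb {R : ℝ} (hR : 0 < R) {τ τ' : E3 → ℝ} (h : Good R τ) (h' : Good R τ') (a b : ℝ) (x : E3) :
    V (fun y => a * τ y + b * τ' y) x = a * V τ x + b * V τ' x := by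
  unfold V
  rw [← integral_const_mul, ← integral_const_mul,
    ← integral_add ((h.int_kern hR x).const_mul a) ((h'.int_kern hR x).const_mul b)]
  congr 1; ext y; ring

lemma prod_int {R : ℝ} (hR : 0 < R) {τ τ' : E3 → ℝ} (h : Good R τ) (h' : Good R τ') :
    Integrable (fun q : E3 × E3 => τ q.1 * τ' q.2 * (dist q.1 q.2)⁻¹)
      ((volume : Measure E3).prod (volume : Measure E3)) := by
  have hm := h.meas
  have hm' := h'.meas
  rw [integrable_prod_iff (by fun_prop)]
  constructor
  · refine ae_of_all _ fun x => ?_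
    have := (h'.int_kern hR x).const_mul (τ x)
    simpa [mul_assoc] using this
  · have hbd : ∀ x, ∫ y, ‖τ x * τ' y * (dist x y)⁻¹‖ ≤ |τ x| * (2 * Real.pi * R ^ 2) := by
      intro x
      have e1 : ∀ y, ‖τ x * τ' y * (dist x y)⁻¹‖ = |τ x| * (|τ' y| * (dist x y)⁻¹) := by
        intro y
        rw [Real.norm_eq_abs, abs_mul, abs_mul, abs_of_nonneg (inv_nonneg.2 dist_nonneg), mul_assoc]
      simp_rw [e1]
      rw [integral_const_mul]
      gcongr
      have hg : Good R (fun y => |τ' y|) := ⟨by fun_prop, fun y => by rw [abs_abs]; exact h'.bd y⟩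
      have := hg.V_abs_le hR x
      unfold V at this
      exact (le_abs_self _).trans (this.trans (Nn_le hR (norm_nonneg _)))
    refine ((h.integrable hR).abs.mul_const (2 * Real.pi * R ^ 2)).mono' ?_ (ae_of_all _ fun x => ?_)
    · have : Measurable (fun q : E3 × E3 => ‖τ q.1 * τ' q.2 * (dist q.1 q.2)⁻¹‖) := by fun_prop
      exact (this.stronglyMeasurable.integral_prod_right').aestronglyMeasurable
    · rw [Real.norm_of_nonneg (integral_nonneg fun y => norm_nonneg _)]
      exact hbd x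

/-- symmetry of the mutual energy -/
lemma energy_symm {R : ℝ} (hR : 0 < R) {τ τ' : E3 → ℝ} (h : Good R τ) (h' : Good R τ') :
    ∫ x, τ x * V τ' x = ∫ x, τ' x * V τ x := by
  have h1 := prod_int hR h h'
  have h2 : ∫ x, τ x * V τ' x = ∫ x, ∫ y, τ x * τ' y * (dist x y)⁻¹ := by
    congr 1; ext x; unfold V; rw [← integral_const_mul]; congr 1; ext y; ring
  have h3 : ∫ y, τ' y * V τ y = ∫ y, ∫ x, τ x * τ' y * (dist x y)⁻¹ := by
    congr 1; ext y; unfold V; rw [← integral_const_mul]; congr 1; ext x; rw [dist_comm]; ring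
  rw [h2, h3]
  exact integral_integral_swap (f := fun x y => τ x * τ' y * (dist x y)⁻¹) h1

lemma int_mul_V {R : ℝ} (hR : 0 < R) {τ τ' : E3 → ℝ} (h : Good R τ) (h' : Good R τ') :
    Integrable (fun x => τ x * V τ' x) :=
  h.int_mul hR (((h'.V_cont hR).continuousOn.integrableOn_compact (isCompact_closedBall 0 R)).mono_set
    Metric.ball_subset_closedBall)

lemma V_bound {R : ℝ} (hR : 0 < R) {τ : E3 → ℝ} (h : Good R τ) (x : E3) :
    |V τ x| ≤ 2 * Real.pi * R ^ 2 := (h.V_abs_le hR x).trans (Nn_le hR (norm_nonneg _))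

/-- the functional -/
noncomputable def En (c : ℝ) (g : E3 → ℝ) : ℝ := (∫ x, g x * V g x) / 2 - c * ∫ x, g x

lemma En_convex {D : Set E3} {R : ℝ} (hR : 0 < R) (hD : D ⊆ Metric.ball 0 R) (c : ℝ)
    {g g' : E3 → ℝ} (h : Adm D g) (h' : Adm D g') {a b : ℝ} (ha : 0 ≤ a) (hb : 0 ≤ b)
    (hab : a + b = 1) : En c (fun y => a * g y + b * g' y) ≤ a * En c g + b * En c g' := by
  have hg := h.good hD
  have hg' := h'.good hD
  have hs := h.sub_good h' hD hD
  have hnn := energy_nonneg hR hs
  have i11 := int_mul_V hR hg hg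
  have i12 := int_mul_V hR hg hg'
  have i21 := int_mul_V hR hg' hg
  have i22 := int_mul_V hR hg' hg'
  have e1 : ∫ x, (g x - g' x) * V (fun y => g y - g' y) x =
      (∫ x, g x * V g x) - (∫ x, g x * V g' x) - (∫ x, g' x * V g x) + ∫ x, g' x * V g' x := by
    rw [← integral_sub' i11 i12, ← integral_sub' (i11.sub i12) i21,
      ← integral_add' ((i11.sub i12).sub i21) i22]
    congr 1
    ext x
    simp only [Pi.sub_apply, Pi.add_apply]
    rw [V_sub hR hg hg']; ring
  have e2 : ∫ x, (a * g x + b * g' x) * V (fun y => a * g y + b * g' y) x =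
      a ^ 2 * (∫ x, g x * V g x) + a * b * (∫ x, g x * V g' x) + a * b * (∫ x, g' x * V g x) +
        b ^ 2 * ∫ x, g' x * V g' x := by
    rw [← integral_const_mul, ← integral_const_mul, ← integral_const_mul, ← integral_const_mul,
      ← integral_add' (i11.const_mul _) (i12.const_mul _),
      ← integral_add' ((i11.const_mul _).add (i12.const_mul _)) (i21.const_mul _),
      ← integral_add' (((i11.const_mul _).add (i12.const_mul _)).add (i21.const_mul _)) (i22.const_mul _)]
    congr 1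
    ext x
    simp only [Pi.add_apply]
    rw [V_comb hR hg hg']; ring
  have e3 : ∫ x, (a * g x + b * g' x) = a * (∫ x, g x) + b * ∫ x, g' x := by
    rw [integral_add ((hg.integrable hR).const_mul _) ((hg'.integrable hR).const_mul _),
      integral_const_mul, integral_const_mul]
  unfold En
  rw [e2, e3]
  rw [e1] at hnn
  have hb' : b = 1 - a := by linarith
  subst hb'
  nlinarith [mul_nonneg (mul_nonneg ha hb) hnn]

lemma En_lip {D : Set E3} {R : ℝ} (hR : 0 < R) (hD : D ⊆ Metric.ball 0 R) (c : ℝ)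
    {g g' : E3 → ℝ} (h : Adm D g) (h' : Adm D g') :
    |En c g - En c g'| ≤ (2 * Real.pi * R ^ 2 + |c|) * ∫ x, |g x - g' x| := by
  have hg := h.good hD
  have hg' := h'.good hD
  have hs := h.sub_good h' hD hD
  have i11 := int_mul_V hR hg hg
  have i12 := int_mul_V hR hg hg'
  have i21 := int_mul_V hR hg' hg
  have i22 := int_mul_V hR hg' hg'
  have hsy := energy_symm hR hg hg'
  have hi := (hs.integrable hR)
  have e1 : En c g - En c g' = ∫ x, (g x - g' x) * ((V g x + V g' x) / 2 - c) := by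
    have e0 : ∫ x, (g x - g' x) * ((V g x + V g' x) / 2 - c) =
        (1/2) * (∫ x, g x * V g x) + (1/2) * (∫ x, g x * V g' x) - (1/2) * (∫ x, g' x * V g x)
          - (1/2) * (∫ x, g' x * V g' x) - c * (∫ x, (g x - g' x)) := by
      rw [← integral_const_mul, ← integral_const_mul, ← integral_const_mul, ← integral_const_mul,
        ← integral_const_mul, ← integral_add' (i11.const_mul _) (i12.const_mul _),
        ← integral_sub' ((i11.const_mul _).add (i12.const_mul _)) (i21.const_mul _),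
        ← integral_sub' (((i11.const_mul _).add (i12.const_mul _)).sub (i21.const_mul _))
          (i22.const_mul _),
        ← integral_sub' ((((i11.const_mul _).add (i12.const_mul _)).sub (i21.const_mul _)).sub
          (i22.const_mul _)) (hi.const_mul _)]
      congr 1
      ext x
      simp only [Pi.add_apply, Pi.sub_apply]
      ring
    rw [e0, integral_sub (hg.integrable hR) (hg'.integrable hR)]
    unfold En
    rw [hsy]
    ring
  rw [e1]
  refine (abs_integral_le_integral_abs).trans ?_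
  rw [← integral_const_mul]
  apply integral_mono_of_nonneg (ae_of_all _ fun x => abs_nonneg _) ((hi.abs).const_mul _)
  refine ae_of_all _ fun x => ?_
  simp only
  rw [abs_mul, mul_comm]
  apply mul_le_mul_of_nonneg_right _ (abs_nonneg _)
  have b1 := V_bound hR hg x
  have b2 := V_bound hR hg' x
  calc |(V g x + V g' x) / 2 - c| ≤ |(V g x + V g' x) / 2| + |c| := abs_sub _ _
    _ ≤ 2 * Real.pi * R ^ 2 + |c| := by
        have : |V g x + V g' x| ≤ |V g x| + |V g' x| := abs_add_le _ _
        rw [abs_div, abs_of_pos (by norm_num : (0:ℝ) < 2)]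
        linarith

end Pool.Agent.V1188.Sh
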