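import Pool.Agent.V1188.Sh.Exist

set_option autoImplicit false

open MeasureTheory Set Filter Topology

namespace Pool.Agent.V1188.Sh

open Pool.Agent.H283R3.Newt

/-- Euler-Lagrange inequality -/
lemma euler {D : Set E3} {R : ℝ} (hR : 0 < R) (hDR : D ⊆ Metric.ball 0 R) {c : ℝ} {g : E3 → ℝ}
    (hg : Adm D g) (hmin : ∀ g', Adm D g' → En c g ≤ En c g') {g' : E3 → ℝ} (hg' : Adm D g') :
    0 ≤ ∫ x, (V g x - c) * (g' x - g x) := by
  have hgG := hg.good hDR
  have hgG' := hg'.good hDR
  have hs := hg'.sub_good hg hDR hDR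
  have i11 := int_mul_V hR hgG hgG
  have i12 := int_mul_V hR hgG hgG'
  have i21 := int_mul_V hR hgG' hgG
  have i22 := int_mul_V hR hgG' hgG'
  have hsy := energy_symm hR hgG hgG'
  set a11 := ∫ x, g x * V g x with ha11
  set a12 := ∫ x, g x * V g' x with ha12
  set a21 := ∫ x, g' x * V g x with ha21
  set a22 := ∫ x, g' x * V g' x with ha22
  set m1 := ∫ x, g x with hm1
  set m2 := ∫ x, g' x with hm2
  have hA : ∫ x, (V g x - c) * (g' x - g x) = a21 - a11 - c * (m2 - m1) := by
    rw [ha21, ha11, hm1, hm2, ← integral_sub (hgG'.integrable hR) (hgG.integrable hR),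
      ← integral_const_mul, ← integral_sub' i21 i11,
      ← integral_sub' (i21.sub i11) ((hs.integrable hR).const_mul _)]
    congr 1
    ext x
    simp only [Pi.sub_apply]
    ring
  have hexp : ∀ t : ℝ, 0 ≤ t → t ≤ 1 →
      0 ≤ t * (a21 - a11 - c * (m2 - m1)) + t ^ 2 * ((a22 - a12 - a21 + a11) / 2) := by
    intro t ht0 ht1
    have h1 := hmin _ (hg.comb hg' (sub_nonneg.2 ht1) ht0 (by ring))
    have e2 : ∫ x, ((1 - t) * g x + t * g' x) * V (fun y => (1 - t) * g y + t * g' y) x =
        (1 - t) ^ 2 * a11 + (1 - t) * t * a12 + (1 - t) * t * a21 + t ^ 2 * a22 := by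
      rw [ha11, ha12, ha21, ha22,
        ← integral_const_mul, ← integral_const_mul, ← integral_const_mul, ← integral_const_mul,
        ← integral_add' (i11.const_mul _) (i12.const_mul _),
        ← integral_add' ((i11.const_mul _).add (i12.const_mul _)) (i21.const_mul _),
        ← integral_add' (((i11.const_mul _).add (i12.const_mul _)).add (i21.const_mul _))
          (i22.const_mul _)]
      congr 1
      ext x
      simp only [Pi.add_apply]
      rw [V_comb hR hgG hgG']; ring
    have e3 : ∫ x, ((1 - t) * g x + t * g' x) = (1 - t) * m1 + t * m2 := by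
      rw [integral_add ((hgG.integrable hR).const_mul _) ((hgG'.integrable hR).const_mul _),
        integral_const_mul, integral_const_mul]
    unfold En at h1
    rw [e2, e3, ← ha11, ← hm1] at h1
    nlinarith
  rw [hA]
  by_contra hneg
  push Not at hneg
  set A := a21 - a11 - c * (m2 - m1) with hAdef
  set Q := (a22 - a12 - a21 + a11) / 2 with hQ
  -- choose t small
  have hQ1 := hexp 1 zero_le_one le_rfl
  have hQpos : 0 < Q := by linarith
  set t := min 1 (-A / (2 * Q)) with ht
  have ht0 : 0 < t := lt_min one_pos (div_pos (by linarith) (by linarith))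
  have ht1 : t ≤ 1 := min_le_left _ _
  have ht2 : t ≤ -A / (2 * Q) := min_le_right _ _
  have h2 := hexp t ht0.le ht1
  rw [le_div_iff₀ (by linarith)] at ht2
  nlinarith

/-- the density of a shell: full where the potential is below `c` -/
structure Sol (D : Set E3) (c : ℝ) (g : E3 → ℝ) : Prop where
  adm : Adm D g
  le : ∀ x, V g x ≤ c
  one : ∀ᵐ x ∂(volume : Measure E3), x ∈ D → V g x < c → g x = 1

theorem exists_sol {D : Set E3} (hD : MeasurableSet D) {R : ℝ} (hR : 0 < R)
    (hDR : D ⊆ Metric.ball 0 R) {c : ℝ} (hc : 0 ≤ c) : ∃ g, Sol D c g := by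
  obtain ⟨g, hg, hmin⟩ := exists_min hD hR hDR c
  have hG := hg.good hDR
  have hcont := hG.V_cont hR
  set A : Set E3 := D ∩ {x | V g x < c} with hA
  have hAm : MeasurableSet A := hD.inter (isOpen_lt hcont continuous_const).measurableSet
  have hg' : Adm D (A.indicator 1) := by
    refine ⟨measurable_one.indicator hAm, fun x => indicator_nonneg (fun _ _ => zero_le_one) x,
      fun x => ?_⟩
    exact indicator_le_indicator_of_subset inter_subset_left (fun _ => zero_le_one) x
  have hE := euler hR hDR hg hmin hg'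
  have hpt : ∀ x, (V g x - c) * (A.indicator 1 x - g x) ≤ 0 := by
    intro x
    rcases lt_trichotomy (V g x) c with h | h | h
    · have h1 : g x ≤ A.indicator 1 x := by
        by_cases hx : x ∈ D
        · have hxA : x ∈ A := ⟨hx, h⟩
          rw [indicator_of_mem hxA]
          exact hg.le_one x
        · rw [hg.zero_off hx]
          exact indicator_nonneg (fun _ _ => zero_le_one) x
      nlinarith
    · rw [h]; simp
    · have h1 : A.indicator (1 : E3 → ℝ) x = 0 := by
        apply indicator_of_notMem
        rintro ⟨_, h2⟩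
        exact absurd h2 (not_lt.2 h.le)
      rw [h1]
      have := hg.nonneg x
      nlinarith
  have hsg := hg'.sub_good hg hDR hDR
  have hint : Integrable (fun x => (V g x - c) * (A.indicator 1 x - g x)) := by
    have h1 := hsg.int_mul hR (k := fun x => V g x - c)
      (((hcont.sub continuous_const).continuousOn.integrableOn_compact
        (isCompact_closedBall 0 R)).mono_set Metric.ball_subset_closedBall)
    refine h1.congr (ae_of_all _ fun x => ?_)
    simp only
    ring
  have hzero : (fun x => (V g x - c) * (A.indicator 1 x - g x)) =ᵐ[volume] 0 := by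
    have h1 : ∫ x, -((V g x - c) * (A.indicator 1 x - g x)) = 0 := by
      rw [integral_neg]
      have h2 : ∫ x, (V g x - c) * (A.indicator 1 x - g x) ≤ 0 := integral_nonpos hpt
      linarith
    rw [integral_eq_zero_iff_of_nonneg_ae (ae_of_all _ fun x => by
      show 0 ≤ -((V g x - c) * (A.indicator 1 x - g x))
      have := hpt x; linarith) (by simpa using hint.neg)] at h1
    filter_upwards [h1] with x hx
    simp only [Pi.zero_apply] at hx ⊢
    linarith
  refine ⟨g, hg, ?_, ?_⟩
  · by_contra hcon
    push Not at hcon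
    obtain ⟨x0, hx0⟩ := hcon
    have hU : IsOpen {x | c < V g x} := isOpen_lt continuous_const hcont
    have := max_principle hR hG hU hc (by
      filter_upwards [hzero] with x hx hxU
      simp only [Pi.zero_apply] at hx
      have h1 : A.indicator (1 : E3 → ℝ) x = 0 := by
        apply indicator_of_notMem
        rintro ⟨_, h2⟩
        have h3 : V g x < c := h2
        have h4 : c < V g x := hxU
        linarith
      rw [h1] at hx
      have h4 : c < V g x := hxU
      rcases mul_eq_zero.1 hx with h5 | h5
      · linarith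
      · linarith) (by
      intro x _ hxn
      exact not_lt.1 hxn) x0 hx0
    linarith
  · filter_upwards [hzero] with x hx hxD hlt
    simp only [Pi.zero_apply] at hx
    have hxA : x ∈ A := ⟨hxD, hlt⟩
    rw [indicator_of_mem hxA] at hx
    rcases mul_eq_zero.1 hx with h5 | h5
    · linarith
    · simp only [Pi.one_apply] at h5
      linarith

/-- reflection monotonicity -/
theorem Sol.refl {D : Set E3} {R : ℝ} (hR : 0 < R) (hDR : D ⊆ Metric.ball 0 R) {c : ℝ}
    {g : E3 → ℝ} (h : Sol D c g) {σ : E3 → E3} (hiso : Isometry σ)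
    (hmp : MeasurePreserving σ (volume : Measure E3) volume) (hinv : ∀ x, σ (σ x) = x)
    {H : Set E3} (hH : IsOpen H) (hfix : ∀ x ∈ closure H, x ∉ H → σ x = x)
    (hDH : ∀ x ∈ H, σ x ∈ D → x ∈ D) : ∀ x ∈ H, V g (σ x) ≤ V g x := by
  have hRσ : 0 < R + ‖σ 0‖ := by positivity
  have hD1 : D ⊆ Metric.ball 0 (R + ‖σ 0‖) :=
    hDR.trans (Metric.ball_subset_ball (by linarith [norm_nonneg (σ 0)]))
  have hD2 : σ ⁻¹' D ⊆ Metric.ball 0 (R + ‖σ 0‖) := by
    intro y hy
    have h1 := hDR hy
    rw [mem_ball_zero_iff] at h1 ⊢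
    have h2 : ‖y‖ = dist (σ y) (σ 0) := by rw [hiso.dist_eq, dist_zero_right]
    rw [h2, dist_eq_norm]
    exact (norm_sub_le _ _).trans_lt (by linarith)
  have hσm : Measurable σ := hmp.measurable
  have hadm : Adm (σ ⁻¹' D) (fun y => g (σ y)) := by
    refine ⟨h.adm.meas.comp hσm, fun x => h.adm.nonneg _, fun x => ?_⟩
    have := h.adm.le (σ x)
    by_cases hx : σ x ∈ D
    · rw [indicator_of_mem hx] at this
      rw [indicator_of_mem (show x ∈ σ ⁻¹' D from hx)]
      exact this
    · rw [indicator_of_notMem hx] at this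
      rw [indicator_of_notMem (show x ∉ σ ⁻¹' D from hx)]
      exact this
  have hgood := hadm.sub_good h.adm hD2 hD1
  have hσe : MeasurableEmbedding σ := by
    have : Function.Involutive σ := hinv
    exact hiso.continuous.measurableEmbedding this.injective
  have hVσ : ∀ x, V (fun y => g (σ y)) x = V g (σ x) := by
    intro x
    unfold V
    have h1 := hmp.integral_comp hσe (fun y => g y * (dist (σ x) y)⁻¹)
    rw [← h1]
    congr 1
    ext y
    rw [hiso.dist_eq]
  have hVτ : ∀ x, V (fun y => g (σ y) - g y) x = V g (σ x) - V g x := by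
    intro x
    rw [V_sub hRσ (hadm.good hD2) (h.adm.good hD1), hVσ]
  have hcont := (h.adm.good hD1).V_cont hRσ
  have hcontσ : Continuous (fun x => V g (σ x)) := hcont.comp hiso.continuous
  set U : Set E3 := H ∩ {x | V g x < V g (σ x)} with hUdef
  have hUo : IsOpen U := hH.inter (isOpen_lt hcont hcontσ)
  intro x hx
  by_contra hlt
  push Not at hlt
  have hmax := max_principle hRσ hgood hUo le_rfl (by
    filter_upwards [h.one] with y hy hyU
    have h1 : V g y < V g (σ y) := hyU.2
    have h2 := h.le (σ y)
    by_cases hyD : y ∈ D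
    · rw [hy hyD (by linarith)]
      have := h.adm.le_one (σ y)
      linarith
    · have h3 : σ y ∉ D := fun h4 => hyD (hDH y hyU.1 h4)
      rw [h.adm.zero_off hyD, h.adm.zero_off h3]
      simp) (by
    intro y hy hyn
    rw [hVτ]
    by_cases hyH : y ∈ H
    · have : ¬ (V g y < V g (σ y)) := fun h4 => hyn ⟨hyH, h4⟩
      linarith
    · have h5 := hfix y (closure_mono inter_subset_left hy) hyH
      rw [h5]; simp) x ⟨hx, hlt⟩
  rw [hVτ] at hmax
  linarith

end Pool.Agent.V1188.Sh
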